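import Mathlib
import Pool.Agent.Helper15.QH.Halving
import Pool.Agent.Helper57.NS.Defs

set_option autoImplicit false

/-!
Project NS, piece N14: the halving lemma with a frame (Step 3 of the proof,
`/team-store/QH_nonsym_proof.md`).
-/

namespace Pool.Agent.Helper57.NS

open scoped BigOperators RealInnerProductSpace
open Pool.Agent.Helper15.QH

private theorem h96_frm_inner {d : ℕ} {ι : Type} [Fintype ι] (v : ι → Eu d) (w : ι → ℝ)
    (x y : Eu d) : ⟪frm v w x, y⟫ = ∑ i, w i * ⟪v i, x⟫ * ⟪v i, y⟫ := by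
  rw [frm_apply, sum_inner]
  exact Finset.sum_congr rfl fun i _ => by rw [inner_smul_left]; simp

/-- The inverse of the weighted frame operator. -/
private theorem h96_frame_inv {d : ℕ} {ι : Type} [Fintype ι] (v : ι → Eu d) (w : ι → ℝ)
    (hw : ∀ i, 0 < w i) (hs : Spn v) :
    ∃ r : Eu d →ₗ[ℝ] Eu d, ∀ z y : Eu d, ⟪z, y⟫ = ∑ i, w i * ⟪v i, r z⟫ * ⟪v i, y⟫ := by
  have hinj : Function.Injective (frm v w) := by
    rw [← LinearMap.ker_eq_bot, LinearMap.ker_eq_bot']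
    intro x hx
    apply hs
    have h0 : ∑ i, w i * ⟪v i, x⟫ * ⟪v i, x⟫ = 0 := by
      rw [← h96_frm_inner, hx, inner_zero_left]
    intro i
    have h1 := (Finset.sum_eq_zero_iff_of_nonneg (fun i _ => by
      rw [mul_assoc]; exact mul_nonneg (hw i).le (mul_self_nonneg _))).1 h0 i (Finset.mem_univ i)
    rw [mul_assoc] at h1
    rcases mul_eq_zero.1 h1 with h | h
    · exact absurd h (hw i).ne'
    · exact mul_self_eq_zero.1 h
  let e := LinearEquiv.ofInjectiveEndo (frm v w) hinj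
  refine ⟨e.symm.toLinearMap, fun z y => ?_⟩
  rw [← h96_frm_inner]
  congr 1
  have := e.apply_symm_apply z
  exact this.symm

/-- The frame estimates for one family `x`. -/
private theorem h96_family {d n N : ℕ} (hn : 0 < n) (hN : 0 < N) (t : Fin n → Eu d) (ht : Spn t)
    (C0 : ℝ) (hC0 : 1 ≤ C0) (a a' : Fin N → Eu d)
    (ha : ∀ l (y : Eu d), ⟪a l, y⟫ ^ 2 ≤ C0 ^ 2 * ∑ k, ⟪t k, y⟫ ^ 2)
    (ha' : ∀ l (y : Eu d), ⟪a' l, y⟫ ^ 2 ≤ C0 ^ 2 * ∑ k, ⟪t k, y⟫ ^ 2) (τ : ℝ) (hτ : 0 < τ)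
    (x : Fin N → Eu d)
    (hx : (∀ l, x l = a l) ∨ (∀ l, x l = a' l)) :
    ∃ K : (Fin N → Bool) → ℝ, ∑ ε, K ε ≤ 2 ^ N * (2 * √2) ∧
      ∀ (ε : Fin N → Bool) (y : Eu d),
        √(Real.log (2 * n) / τ) * ∑ k, |⟪t k, y⟫| +
          C0 * √(τ * Real.log (4 * N)) * ∑ l, (|⟪a l, y⟫| + |⟪a' l, y⟫|) ≤ 1 →
        ∑ l, sg (ε l) * ⟪x l, y⟫ ≤ K ε := by
  classical
  have hn1 : (1 : ℝ) ≤ n := by exact_mod_cast hn
  have hN1 : (1 : ℝ) ≤ N := by exact_mod_cast hN
  have hLn : 0 < Real.log (2 * n) := Real.log_pos (by linarith)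
  have hLN : 0 < Real.log (4 * N) := Real.log_pos (by linarith)
  set α := √(Real.log (2 * n) / τ) with hα
  set β := C0 * √(τ * Real.log (4 * N)) with hβ
  have hαp : 0 < α := Real.sqrt_pos.2 (div_pos hLn hτ)
  have hβp : 0 < β := mul_pos (by linarith) (Real.sqrt_pos.2 (mul_pos hτ hLN))
  -- the frame
  let v : (Fin n ⊕ (Fin N ⊕ Fin N)) → Eu d := Sum.elim t (Sum.elim a a')
  let w : (Fin n ⊕ (Fin N ⊕ Fin N)) → ℝ := Sum.elim (fun _ => 1) (fun _ => τ)
  have hw : ∀ i, 0 < w i := by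
    rintro (i | i)
    · exact one_pos
    · exact hτ
  have hs : Spn v := fun y hy => ht y fun k => hy (Sum.inl k)
  obtain ⟨r, hr⟩ := h96_frame_inv v w hw hs
  have hr' : ∀ z y : Eu d, ⟪z, y⟫ = ∑ k, ⟪t k, r z⟫ * ⟪t k, y⟫ +
      τ * ∑ l, (⟪a l, r z⟫ * ⟪a l, y⟫ + ⟪a' l, r z⟫ * ⟪a' l, y⟫) := by
    intro z y
    rw [hr z y, Fintype.sum_sum_type, Fintype.sum_sum_type, Finset.sum_add_distrib, mul_add,
      Finset.mul_sum, Finset.mul_sum]
    simp only [v, w, Sum.elim_inl, Sum.elim_inr, one_mul, mul_assoc]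
  have hsymm : ∀ z y : Eu d, ⟪z, r y⟫ = ⟪r z, y⟫ := by
    intro z y
    rw [hr z (r y), real_inner_comm, hr y (r z)]
    exact Finset.sum_congr rfl fun i _ => by ring
  have hself : ∀ z : Eu d, ⟪z, r z⟫ = ∑ k, ⟪t k, r z⟫ ^ 2 +
      τ * ∑ l, (⟪a l, r z⟫ ^ 2 + ⟪a' l, r z⟫ ^ 2) := by
    intro z
    rw [hr' z (r z)]
    simp only [sq]
  have hle1 : ∀ z : Eu d, ∑ k, ⟪t k, r z⟫ ^ 2 ≤ ⟪z, r z⟫ := by
    intro z
    rw [hself z]
    have : 0 ≤ τ * ∑ l, (⟪a l, r z⟫ ^ 2 + ⟪a' l, r z⟫ ^ 2) :=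
      mul_nonneg hτ.le (Finset.sum_nonneg fun l _ => add_nonneg (sq_nonneg _) (sq_nonneg _))
    linarith
  have hle2 : ∀ z : Eu d, ∑ l, (⟪a l, r z⟫ ^ 2 + ⟪a' l, r z⟫ ^ 2) ≤ ⟪z, r z⟫ / τ := by
    intro z
    rw [le_div_iff₀ hτ, hself z]
    have : 0 ≤ ∑ k, ⟪t k, r z⟫ ^ 2 := Finset.sum_nonneg fun l _ => sq_nonneg _
    linarith
  have hlev : ∀ (κ : ℝ) (z : Eu d), 
      (∀ y : Eu d, ⟪z, y⟫ ^ 2 ≤ κ ^ 2 * ∑ k, ⟪t k, y⟫ ^ 2) → ⟪z, r z⟫ ≤ κ ^ 2 := by
    intro κ z hz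
    by_contra hcon
    push Not at hcon
    have h1 : 0 < ⟪z, r z⟫ := lt_of_le_of_lt (sq_nonneg _) hcon
    have h2 := hz (r z)
    have h3 := mul_le_mul_of_nonneg_left (hle1 z) (sq_nonneg κ)
    nlinarith
  -- sums over the family
  have hxs : ∀ v : Eu d, ∑ l, ⟪v, r (x l)⟫ ^ 2 ≤ ⟪v, r v⟫ / τ := by
    intro v
    refine le_trans ?_ (hle2 v)
    apply Finset.sum_le_sum
    intro l _
    rw [hsymm v (x l), real_inner_comm]
    rcases hx with h | h
    · rw [h l]; nlinarith [sq_nonneg ⟪a' l, r v⟫]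
    · rw [h l]; nlinarith [sq_nonneg ⟪a l, r v⟫]
  -- the two maxima
  obtain ⟨M1, hM10, hM1, hM1s⟩ := exists_max (fun l k => ⟪t k, r (x l)⟫)
    (Finset.univ : Finset (Fin n)) (1 / τ) (by
      intro k _
      refine (hxs (t k)).trans ?_
      have : ⟪t k, r (t k)⟫ ≤ 1 ^ 2 := by
        apply hlev
        intro y
        rw [one_pow, one_mul]
        exact Finset.single_le_sum (f := fun k => ⟪t k, y⟫ ^ 2) (fun k _ => sq_nonneg _)
          (Finset.mem_univ k)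
      rw [one_pow] at this
      gcongr) n hn1 (by simp)
  obtain ⟨M2, hM20, hM2, hM2s⟩ := exists_max (fun l k => ⟪Fin.append a a' k, r (x l)⟫)
    (Finset.univ : Finset (Fin (N + N))) (C0 ^ 2 / τ) (by
      intro k _
      refine (hxs (Fin.append a a' k)).trans ?_
      have : ⟪Fin.append a a' k, r (Fin.append a a' k)⟫ ≤ C0 ^ 2 := by
        apply hlev
        intro y
        refine Fin.addCases (fun i => ?_) (fun i => ?_) k
        · rw [Fin.append_left]; exact ha i y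
        · rw [Fin.append_right]; exact ha' i y
      gcongr) (2 * N) (by linarith) (by simp; linarith)
  refine ⟨fun ε => M1 ε / α + τ * M2 ε / β, ?_, ?_⟩
  · rw [Finset.sum_add_distrib, ← Finset.sum_div, ← Finset.sum_div, ← Finset.mul_sum]
    have e1 : √(2 * (1 / τ) * Real.log (2 * n)) = √2 * α := by
      rw [hα, ← Real.sqrt_mul (by norm_num)]
      congr 1; ring
    have e2 : τ * √(2 * (C0 ^ 2 / τ) * Real.log (2 * (2 * N))) = √2 * β := by
      have h1 : τ * √(2 * (C0 ^ 2 / τ) * Real.log (2 * (2 * N))) =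
          √(τ ^ 2 * (2 * (C0 ^ 2 / τ) * Real.log (2 * (2 * N)))) := by
        rw [Real.sqrt_mul (sq_nonneg τ), Real.sqrt_sq hτ.le]
      have h2 : τ ^ 2 * (2 * (C0 ^ 2 / τ) * Real.log (2 * (2 * N))) =
          2 * (C0 ^ 2 * (τ * Real.log (4 * N))) := by
        field_simp
        ring_nf
      rw [h1, h2, Real.sqrt_mul (by norm_num), Real.sqrt_mul (sq_nonneg C0),
        Real.sqrt_sq (by linarith), hβ]
    rw [e1] at hM1s
    have h1 : (∑ ε, M1 ε) / α ≤ 2 ^ N * √2 := by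
      rw [div_le_iff₀ hαp]
      calc _ ≤ _ := hM1s
        _ = _ := by ring
    have h2 : τ * (∑ ε, M2 ε) / β ≤ 2 ^ N * √2 := by
      rw [div_le_iff₀ hβp]
      calc τ * ∑ ε, M2 ε ≤ τ * (2 ^ N * √(2 * (C0 ^ 2 / τ) * Real.log (2 * (2 * N)))) :=
            mul_le_mul_of_nonneg_left hM2s hτ.le
        _ = 2 ^ N * (τ * √(2 * (C0 ^ 2 / τ) * Real.log (2 * (2 * N)))) := by ring
        _ = _ := by rw [e2]; ring
    linarith
  · intro ε y hy
    set z := ∑ l, sg (ε l) • x l with hz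
    have hzy : ∑ l, sg (ε l) * ⟪x l, y⟫ = ⟪z, y⟫ := by
      rw [hz, sum_inner]
      exact Finset.sum_congr rfl fun l _ => by rw [inner_smul_left]; simp
    have hvz : ∀ v : Eu d, ⟪v, r z⟫ = ∑ l, sg (ε l) * ⟪v, r (x l)⟫ := by
      intro v
      rw [hz, map_sum, inner_sum]
      exact Finset.sum_congr rfl fun l _ => by rw [map_smul, inner_smul_right]
    have k1 : ∀ k, |⟪t k, r z⟫| ≤ M1 ε := by
      intro k
      rw [hvz]
      exact hM1 ε k (Finset.mem_univ k)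
    have k2 : ∀ l, |⟪a l, r z⟫| ≤ M2 ε := by
      intro l
      have := hM2 ε (Fin.castAdd N l) (Finset.mem_univ _)
      simp only [Fin.append_left] at this
      rw [hvz]
      exact this
    have k3 : ∀ l, |⟪a' l, r z⟫| ≤ M2 ε := by
      intro l
      have := hM2 ε (Fin.natAdd N l) (Finset.mem_univ _)
      simp only [Fin.append_right] at this
      rw [hvz]
      exact this
    set θ := ∑ k, |⟪t k, y⟫| with hθ
    set A := ∑ l, (|⟪a l, y⟫| + |⟪a' l, y⟫|) with hA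
    have hθ0 : 0 ≤ θ := Finset.sum_nonneg fun _ _ => abs_nonneg _
    have hA0 : 0 ≤ A := Finset.sum_nonneg fun _ _ => add_nonneg (abs_nonneg _) (abs_nonneg _)
    have hprod : ∀ (u v B : ℝ), |u| ≤ B → u * v ≤ B * |v| := by
      intro u v B h
      calc u * v ≤ |u * v| := le_abs_self _
        _ = |u| * |v| := abs_mul _ _
        _ ≤ B * |v| := mul_le_mul_of_nonneg_right h (abs_nonneg _)
    have b1 : ∑ k, ⟪t k, r z⟫ * ⟪t k, y⟫ ≤ M1 ε * θ := by
      rw [hθ, Finset.mul_sum]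
      exact Finset.sum_le_sum fun k _ => hprod _ _ _ (k1 k)
    have b2 : ∑ l, (⟪a l, r z⟫ * ⟪a l, y⟫ + ⟪a' l, r z⟫ * ⟪a' l, y⟫) ≤ M2 ε * A := by
      rw [hA, Finset.mul_sum]
      apply Finset.sum_le_sum
      intro l _
      rw [mul_add]
      exact add_le_add (hprod _ _ _ (k2 l)) (hprod _ _ _ (k3 l))
    rw [hzy, hr' z y]
    have hα1 : θ ≤ 1 / α := by
      rw [le_div_iff₀ hαp]
      nlinarith [mul_nonneg hβp.le hA0]
    have hβ1 : A ≤ 1 / β := by
      rw [le_div_iff₀ hβp]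
      nlinarith [mul_nonneg hαp.le hθ0]
    have c1 : M1 ε * θ ≤ M1 ε / α := by
      calc _ ≤ M1 ε * (1 / α) := mul_le_mul_of_nonneg_left hα1 (hM10 ε)
        _ = _ := by ring
    have c2 : τ * (M2 ε * A) ≤ τ * M2 ε / β := by
      calc _ ≤ τ * (M2 ε * (1 / β)) :=
            mul_le_mul_of_nonneg_left (mul_le_mul_of_nonneg_left hβ1 (hM20 ε)) hτ.le
        _ = _ := by ring
    have c3 := mul_le_mul_of_nonneg_left b2 hτ.le
    linarith

theorem halving {d n N : ℕ} (hN : 0 < N) (t : Fin n → Eu d) (ht : Spn t) (C0 : ℝ) (hC0 : 1 ≤ C0)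
    (a a' : Fin N → Eu d)
    (ha : ∀ l (y : Eu d), ⟪a l, y⟫ ^ 2 ≤ C0 ^ 2 * ∑ k, ⟪t k, y⟫ ^ 2)
    (ha' : ∀ l (y : Eu d), ⟪a' l, y⟫ ^ 2 ≤ C0 ^ 2 * ∑ k, ⟪t k, y⟫ ^ 2) (τ : ℝ) (hτ : 0 < τ) :
    ∃ c : Fin N → Bool, ∀ y : Eu d,
      |∑ l, |⟪if c l then a l else a' l, y⟫| - (1 / 2) * ∑ l, (|⟪a l, y⟫| + |⟪a' l, y⟫|)| ≤
        9 * (√(Real.log (2 * n) / τ) * ∑ k, |⟪t k, y⟫| +
          C0 * √(τ * Real.log (4 * N)) * ∑ l, (|⟪a l, y⟫| + |⟪a' l, y⟫|)) ∧
      |∑ l, ⟪if c l then a l else a' l, y⟫ - (1 / 2) * ∑ l, (⟪a l, y⟫ + ⟪a' l, y⟫)| ≤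
        9 * (√(Real.log (2 * n) / τ) * ∑ k, |⟪t k, y⟫| +
          C0 * √(τ * Real.log (4 * N)) * ∑ l, (|⟪a l, y⟫| + |⟪a' l, y⟫|)) := by
  classical
  rcases Nat.eq_zero_or_pos n with hn | hn
  · subst hn
    have hz : ∀ y : Eu d, y = 0 := fun y => ht y fun i => i.elim0
    refine ⟨fun _ => true, fun y => ?_⟩
    rw [hz y]
    simp
  set α := √(Real.log (2 * n) / τ) with hα
  set β := C0 * √(τ * Real.log (4 * N)) with hβ
  have hn1 : (1 : ℝ) ≤ n := by exact_mod_cast hn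
  have hN1 : (1 : ℝ) ≤ N := by exact_mod_cast hN
  have hLn : 0 < Real.log (2 * n) := Real.log_pos (by linarith)
  have hαp : 0 < α := Real.sqrt_pos.2 (div_pos hLn hτ)
  have hβ0 : 0 ≤ β := mul_nonneg (by linarith) (Real.sqrt_nonneg _)
  set g : Eu d → ℝ := fun y => α * ∑ k, |⟪t k, y⟫| + β * ∑ l, (|⟪a l, y⟫| + |⟪a' l, y⟫|) with hg
  obtain ⟨K, hKs, hK⟩ := h96_family hn hN t ht C0 hC0 a a' ha ha' τ hτ a (Or.inl fun _ => rfl)
  obtain ⟨K', hKs', hK'⟩ := h96_family hn hN t ht C0 hC0 a a' ha ha' τ hτ a' (Or.inr fun _ => rfl)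
  have hgsmul : ∀ (c : ℝ) (y : Eu d), g (c • y) = |c| * g y := by
    intro c y
    simp only [hg, inner_smul_right, abs_mul]
    rw [← Finset.mul_sum, Finset.sum_congr rfl (fun l _ => (mul_add |c| |⟪a l, y⟫| |⟪a' l, y⟫|).symm),
      ← Finset.mul_sum]
    ring
  -- the functionals
  set P : (Fin N → Bool) → Eu d → ℝ := fun c y =>
    ∑ l, sg (c l) * |⟪a l, y⟫| + ∑ l, sg (!c l) * |⟪a' l, y⟫| with hP
  set Q : (Fin N → Bool) → Eu d → ℝ := fun c y =>
    ∑ l, sg (c l) * ⟪a l, y⟫ + ∑ l, sg (!c l) * ⟪a' l, y⟫ with hQ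
  have hch1 : ∀ (c : Fin N → Bool) (y : Eu d),
      ∑ l, |⟪if c l then a l else a' l, y⟫| - (1 / 2) * ∑ l, (|⟪a l, y⟫| + |⟪a' l, y⟫|) =
        P c y / 2 := by
    intro c y
    simp only [hP]
    rw [← Finset.sum_add_distrib, Finset.sum_div, Finset.mul_sum, ← Finset.sum_sub_distrib]
    apply Finset.sum_congr rfl
    intro l _
    cases hc : c l
    · simp; ring
    · simp; ring
  have hch2 : ∀ (c : Fin N → Bool) (y : Eu d),
      ∑ l, ⟪if c l then a l else a' l, y⟫ - (1 / 2) * ∑ l, (⟪a l, y⟫ + ⟪a' l, y⟫) =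
        Q c y / 2 := by
    intro c y
    simp only [hQ]
    rw [← Finset.sum_add_distrib, Finset.sum_div, Finset.mul_sum, ← Finset.sum_sub_distrib]
    apply Finset.sum_congr rfl
    intro l _
    cases hc : c l
    · simp; ring
    · simp; ring
  have hQs : ∀ (c : Fin N → Bool) (s : ℝ) (y : Eu d), Q c (s • y) = s * Q c y := by
    intro c s y
    simp only [hQ, inner_smul_right]
    rw [mul_add, Finset.mul_sum, Finset.mul_sum]
    congr 1 <;> exact Finset.sum_congr rfl fun l _ => by ring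
  have hPs : ∀ (c : Fin N → Bool) (s : ℝ) (y : Eu d), P c (s • y) = |s| * P c y := by
    intro c s y
    simp only [hP, inner_smul_right, abs_mul]
    rw [mul_add, Finset.mul_sum, Finset.mul_sum]
    congr 1 <;> exact Finset.sum_congr rfl fun l _ => by ring
  by_contra hcon
  push Not at hcon
  -- the bad vectors
  have hbad : ∀ c : Fin N → Bool, ∃ y : Eu d, g y ≤ 1 ∧
      (18 < P c y ∨ 18 < P (fun l => !c l) y ∨ 18 < Q c y) := by
    intro c
    obtain ⟨y, hy⟩ := hcon c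
    rw [hch1, hch2] at hy
    have hg0 : 0 ≤ g y := add_nonneg
      (mul_nonneg hαp.le (Finset.sum_nonneg fun _ _ => abs_nonneg _))
      (mul_nonneg hβ0 (Finset.sum_nonneg fun _ _ => add_nonneg (abs_nonneg _) (abs_nonneg _)))
    have hPn : P (fun l => !c l) y = - P c y := by
      simp only [hP, Bool.not_not]
      simp_rw [sg_not, neg_mul]
      rw [Finset.sum_neg_distrib, Finset.sum_neg_distrib]
      ring
    have hfail : 9 * g y < |P c y / 2| ∨ 9 * g y < |Q c y / 2| := by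
      by_cases h : |P c y / 2| ≤ 9 * g y
      · exact Or.inr (hy h)
      · exact Or.inl (not_le.1 h)
    rcases hg0.lt_or_eq with hgp | hgz
    · -- scale
      have hg1 : g ((g y)⁻¹ • y) ≤ 1 := by
        rw [hgsmul, abs_of_pos (inv_pos.2 hgp), inv_mul_cancel₀ hgp.ne']
      have hg2 : g (-((g y)⁻¹ • y)) ≤ 1 := by
        rw [← neg_one_smul ℝ, hgsmul, abs_neg, abs_one, one_mul]
        exact hg1
      rcases hfail with h | h
      · refine ⟨(g y)⁻¹ • y, hg1, ?_⟩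
        rw [hPs, hPs, hPn, abs_of_pos (inv_pos.2 hgp)]
        have h2 : 18 * g y < |P c y| := by
          rw [abs_div, abs_two, lt_div_iff₀ (by norm_num)] at h
          linarith
        rcases lt_abs.1 h2 with h3 | h3
        · left
          rw [inv_mul_eq_div, lt_div_iff₀ hgp]
          exact h3
        · right; left
          rw [inv_mul_eq_div, lt_div_iff₀ hgp]
          exact h3
      · have h2 : 18 * g y < |Q c y| := by
          rw [abs_div, abs_two, lt_div_iff₀ (by norm_num)] at h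
          linarith
        rcases lt_abs.1 h2 with h3 | h3
        · refine ⟨(g y)⁻¹ • y, hg1, Or.inr (Or.inr ?_)⟩
          rw [hQs, inv_mul_eq_div, lt_div_iff₀ hgp]
          exact h3
        · refine ⟨-((g y)⁻¹ • y), hg2, Or.inr (Or.inr ?_)⟩
          rw [← neg_one_smul ℝ, hQs, hQs, inv_mul_eq_div, neg_one_mul, ← neg_div,
            lt_div_iff₀ hgp]
          exact h3
    · -- `y = 0`
      exfalso
      have hy0 : y = 0 := by
        apply ht
        intro k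
        have h1 : ∑ k, |⟪t k, y⟫| = 0 := by
          have hA := mul_nonneg hβ0 (Finset.sum_nonneg (s := Finset.univ)
            (f := fun l => |⟪a l, y⟫| + |⟪a' l, y⟫|)
            fun _ _ => add_nonneg (abs_nonneg _) (abs_nonneg _))
          have hB : 0 ≤ ∑ k, |⟪t k, y⟫| := Finset.sum_nonneg fun _ _ => abs_nonneg _
          have hC : α * ∑ k, |⟪t k, y⟫| + β * ∑ l, (|⟪a l, y⟫| + |⟪a' l, y⟫|) = 0 := hgz.symm
          have hD : α * ∑ k, |⟪t k, y⟫| = 0 := by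
            have := mul_nonneg hαp.le hB
            linarith
          rcases mul_eq_zero.1 hD with h | h
          · exact absurd h hαp.ne'
          · exact h
        have h2 := (Finset.sum_eq_zero_iff_of_nonneg (fun k _ => abs_nonneg _)).1 h1 k
          (Finset.mem_univ k)
        exact abs_eq_zero.1 h2
      rw [hy0] at hfail
      simp [hP, hQ, hg] at hfail
  choose y hy hyb using hbad
  have h2N : (0 : ℝ) < 2 ^ N := by positivity
  have hg00 : g 0 ≤ 1 := by simp [hg]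
  -- three selections
  set y1 : (Fin N → Bool) → Eu d := fun c => if 18 < P c (y c) then y c else 0 with hy1
  set y2 : (Fin N → Bool) → Eu d := fun c => if 18 < P (fun l => !c l) (y c) then y c else 0
    with hy2
  set y3 : (Fin N → Bool) → Eu d := fun c => if 18 < Q c (y c) then y c else 0 with hy3
  have m1 : ∀ c, g (y1 c) ≤ 1 := by
    intro c; simp only [hy1]; split_ifs
    · exact hy c
    · exact hg00
  have m2 : ∀ c, g (y2 c) ≤ 1 := by
    intro c; simp only [hy2]; split_ifs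
    · exact hy c
    · exact hg00
  have m3 : ∀ c, g (y3 c) ≤ 1 := by
    intro c; simp only [hy3]; split_ifs
    · exact hy c
    · exact hg00
  have hP0 : ∀ c, P c 0 = 0 := by intro c; simp [hP]
  have hQ0 : ∀ c, Q c 0 = 0 := by intro c; simp [hQ]
  have n1 : ∀ c, 0 ≤ P c (y1 c) := by
    intro c; simp only [hy1]; split_ifs with h
    · linarith
    · rw [hP0]
  have n2 : ∀ c : Fin N → Bool, 0 ≤ P (fun l => !c l) (y2 c) := by
    intro c; simp only [hy2]; split_ifs with h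
    · linarith
    · rw [hP0]
  have n3 : ∀ c, 0 ≤ Q c (y3 c) := by
    intro c; simp only [hy3]; split_ifs with h
    · linarith
    · rw [hQ0]
  have hall : ∀ c : Fin N → Bool, 18 < P c (y1 c) + P (fun l => !c l) (y2 c) + Q c (y3 c) := by
    intro c
    rcases hyb c with h | h | h
    · have : P c (y1 c) = P c (y c) := by simp only [hy1]; rw [if_pos h]
      linarith [n1 c, n2 c, n3 c]
    · have : P (fun l => !c l) (y2 c) = P (fun l => !c l) (y c) := by
        simp only [hy2]; rw [if_pos h]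
      linarith [n1 c, n2 c, n3 c]
    · have : Q c (y3 c) = Q c (y c) := by simp only [hy3]; rw [if_pos h]
      linarith [n1 c, n2 c, n3 c]
  have hsum : 2 ^ N * 18 < ∑ c : Fin N → Bool,
      (P c (y1 c) + P (fun l => !c l) (y2 c) + Q c (y3 c)) := by
    calc (2 : ℝ) ^ N * 18 = ∑ _c : Fin N → Bool, (18 : ℝ) := by
          rw [Finset.sum_const, nsmul_eq_mul, Finset.card_univ, Fintype.card_fun,
            Fintype.card_bool, Fintype.card_fin]
          push_cast; ring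
      _ < _ := Finset.sum_lt_sum_of_nonempty Finset.univ_nonempty fun c _ => hall c
  -- the bounds
  let e : (Fin N → Bool) ≃ (Fin N → Bool) :=
    ⟨fun c l => !c l, fun c l => !c l, fun c => by funext l; simp, fun c => by funext l; simp⟩
  have hlin : ∀ (x : Fin N → Eu d) (K : (Fin N → Bool) → ℝ), ∑ ε, K ε ≤ 2 ^ N * (2 * √2) →
      (∀ (ε : Fin N → Bool) (y : Eu d), g y ≤ 1 → ∑ l, sg (ε l) * ⟪x l, y⟫ ≤ K ε) →
      ∀ v : (Fin N → Bool) → Eu d, (∀ ε, g (v ε) ≤ 1) →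
      ∑ c : Fin N → Bool, ∑ l, sg (c l) * ⟪x l, v c⟫ ≤ 2 ^ N * (2 * √2) := by
    intro x K hKs hK v hv
    exact le_trans (Finset.sum_le_sum fun c _ => hK c (v c) (hv c)) hKs
  have habs : ∀ (x : Fin N → Eu d) (K : (Fin N → Bool) → ℝ), ∑ ε, K ε ≤ 2 ^ N * (2 * √2) →
      (∀ (ε : Fin N → Bool) (y : Eu d), g y ≤ 1 → ∑ l, sg (ε l) * ⟪x l, y⟫ ≤ K ε) →
      ∀ v : (Fin N → Bool) → Eu d, (∀ ε, g (v ε) ≤ 1) →
      ∑ c : Fin N → Bool, ∑ l, sg (c l) * |⟪x l, v c⟫| ≤ 2 ^ N * (2 * √2) := by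
    intro x K hKs hK v hv
    obtain ⟨z, hz, hle⟩ := contraction {y : Eu d | g y ≤ 1} N (fun _ => 0)
      (fun l Y => ⟪x l, Y⟫) v hv
    simp only [zero_add] at hle
    exact hle.trans (hlin x K hKs hK z hz)
  have hflip : ∀ F : (Fin N → Bool) → ℝ, ∑ c : Fin N → Bool, F (fun l => !c l) = ∑ c, F c :=
    fun F => e.sum_comp F
  have hPb : ∀ v : (Fin N → Bool) → Eu d, (∀ ε, g (v ε) ≤ 1) →
      ∑ c : Fin N → Bool, P c (v c) ≤ 2 ^ N * (4 * √2) := by
    intro v hv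
    simp only [hP]
    rw [Finset.sum_add_distrib]
    have i1 := habs a K hKs hK v hv
    have i2 := habs a' K' hKs' hK' (fun c => v (fun l => !c l)) (fun c => hv _)
    have i3 : ∑ c : Fin N → Bool, ∑ l, sg (!c l) * |⟪a' l, v c⟫| =
        ∑ c : Fin N → Bool, ∑ l, sg (c l) * |⟪a' l, v (fun l => !c l)⟫| := by
      rw [← hflip]
      simp
    rw [i3]
    linarith
  have hQb : ∀ v : (Fin N → Bool) → Eu d, (∀ ε, g (v ε) ≤ 1) →
      ∑ c : Fin N → Bool, Q c (v c) ≤ 2 ^ N * (4 * √2) := by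
    intro v hv
    simp only [hQ]
    rw [Finset.sum_add_distrib]
    have i1 := hlin a K hKs hK v hv
    have i2 := hlin a' K' hKs' hK' (fun c => v (fun l => !c l)) (fun c => hv _)
    have i3 : ∑ c : Fin N → Bool, ∑ l, sg (!c l) * ⟪a' l, v c⟫ =
        ∑ c : Fin N → Bool, ∑ l, sg (c l) * ⟪a' l, v (fun l => !c l)⟫ := by
      rw [← hflip]
      simp
    rw [i3]
    linarith
  have f1 := hPb y1 m1
  have f2 : ∑ c : Fin N → Bool, P (fun l => !c l) (y2 c) ≤ 2 ^ N * (4 * √2) := by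
    rw [← hflip]
    simp only [Bool.not_not]
    exact hPb (fun c => y2 (fun l => !c l)) (fun c => m2 _)
  have f3 := hQb y3 m3
  rw [Finset.sum_add_distrib, Finset.sum_add_distrib] at hsum
  have hs2 : √2 < 3 / 2 := by
    rw [Real.sqrt_lt' (by norm_num)]; norm_num
  nlinarith

end Pool.Agent.Helper57.NS
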