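import Mathlib
import Pool.Agent.Helper57.NS.Defs

set_option autoImplicit false

/-!
Project NS, piece N1: basic facts on the frame operator and the leverage.

Hints. `frm v w` is symmetric: `⟪frm v w x, y⟫ = ∑ w i ⟪v i, x⟫ ⟪v i, y⟫`; for `w > 0` and `Spn v`
it is positive definite, so injective; its determinant is the product of the (positive)
eigenvalues (`LinearMap.IsSymmetric.det_eq_prod_eigenvalues`, see the use in
`Pool/Agent/Helper67/QH/DetLe.lean`).  `fi v = Ring.inverse (fr v)`, `LinearMap.isUnit_iff_isUnit_det`,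
`Ring.mul_inverse_cancel`.  `lev_eq`: `⟪x, fi x⟫ = ⟪fr (fi x), fi x⟫ = ∑ ⟪v i, fi x⟫ ^ 2`.
`inner_sq_le`: `⟪x, y⟫ = ⟪fr (fi x), y⟫ = ∑ ⟪v i, fi x⟫ ⟪v i, y⟫`, Cauchy-Schwarz.
`lev_le_one`: `lev (v i) = ⟪v i, fi (v i)⟫`, its square is one of the terms of `lev_eq`.
`sum_lev`: with an orthonormal basis `e`, `∑ i ⟪v i, fi (v i)⟫ = ∑ j ⟪e j, fr (fi (e j))⟫ = d`.
-/

namespace Pool.Agent.Helper57.NS

open scoped BigOperators RealInnerProductSpace

theorem N1_inner_frm {d : ℕ} {ι : Type} [Fintype ι] (v : ι → Eu d) (w : ι → ℝ) (x y : Eu d) :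
    ⟪frm v w x, y⟫ = ∑ i, w i * (⟪v i, x⟫ * ⟪v i, y⟫) := by
  rw [frm_apply, sum_inner]
  refine Finset.sum_congr rfl fun i _ => ?_
  rw [real_inner_smul_left]
  ring

theorem N1_inner_fr {d : ℕ} {ι : Type} [Fintype ι] (v : ι → Eu d) (x y : Eu d) :
    ⟪fr v x, y⟫ = ∑ i, ⟪v i, x⟫ * ⟪v i, y⟫ := by
  rw [fr, N1_inner_frm]
  simp only [one_mul]

theorem N1_symm {d : ℕ} {ι : Type} [Fintype ι] (v : ι → Eu d) (w : ι → ℝ) :
    (frm v w).IsSymmetric := by
  intro x y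
  rw [N1_inner_frm, real_inner_comm, N1_inner_frm]
  refine Finset.sum_congr rfl fun i _ => ?_
  ring

theorem det_frm_pos {d : ℕ} {ι : Type} [Fintype ι] (v : ι → Eu d) (hv : Spn v) (w : ι → ℝ)
    (hw : ∀ i, 0 < w i) : 0 < LinearMap.det (frm v w) := by
  have hn : Module.finrank ℝ (EuclideanSpace ℝ (Fin d)) = d := by simp
  have hs := N1_symm v w
  have h2 := hs.det_eq_prod_eigenvalues hn
  simp only [RCLike.ofReal_real_eq_id, id] at h2
  rw [h2]
  refine Finset.prod_pos fun k _ => ?_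
  set e := hs.eigenvectorBasis hn with he
  have hPe : frm v w (e k) = hs.eigenvalues hn k • e k := hs.apply_eigenvectorBasis hn k
  have h3 : ⟪frm v w (e k), e k⟫ = hs.eigenvalues hn k := by
    rw [hPe, real_inner_smul_left, real_inner_self_eq_norm_sq, e.norm_eq_one]
    ring
  rw [← h3, N1_inner_frm]
  have hne : e k ≠ 0 := by
    intro h
    have h1 := e.norm_eq_one k
    rw [h, norm_zero] at h1
    exact zero_ne_one h1
  have hex : ∃ i, ⟪v i, e k⟫ ≠ 0 := by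
    by_contra hc
    push Not at hc
    exact hne (hv _ hc)
  obtain ⟨i, hi⟩ := hex
  refine Finset.sum_pos' (fun i _ => ?_) ⟨i, Finset.mem_univ i, ?_⟩
  · exact mul_nonneg (hw i).le (mul_self_nonneg _)
  · exact mul_pos (hw i) (mul_self_pos.mpr hi)

theorem det_fr_pos {d : ℕ} {ι : Type} [Fintype ι] (v : ι → Eu d) (hv : Spn v) :
    0 < LinearMap.det (fr v) :=
  det_frm_pos v hv _ fun _ => one_pos

theorem N1_isUnit {d : ℕ} {ι : Type} [Fintype ι] (v : ι → Eu d) (hv : Spn v) :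
    IsUnit (fr v) := by
  rw [LinearMap.isUnit_iff_isUnit_det, isUnit_iff_ne_zero]
  exact (det_fr_pos v hv).ne'

theorem fr_fi {d : ℕ} {ι : Type} [Fintype ι] (v : ι → Eu d) (hv : Spn v) (x : Eu d) :
    fr v (fi v x) = x := by
  have h := Ring.mul_inverse_cancel _ (N1_isUnit v hv)
  have h2 := LinearMap.congr_fun h x
  exact h2

theorem fi_fr {d : ℕ} {ι : Type} [Fintype ι] (v : ι → Eu d) (hv : Spn v) (x : Eu d) :
    fi v (fr v x) = x := by
  have h := Ring.inverse_mul_cancel _ (N1_isUnit v hv)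
  have h2 := LinearMap.congr_fun h x
  exact h2

theorem fi_symm {d : ℕ} {ι : Type} [Fintype ι] (v : ι → Eu d) (hv : Spn v) (x y : Eu d) :
    ⟪fi v x, y⟫ = ⟪x, fi v y⟫ := by
  conv_lhs => rw [← fr_fi v hv y]
  conv_rhs => rw [← fr_fi v hv x]
  have h := N1_symm v (fun _ => 1)
  exact (h (fi v x) (fi v y)).symm

theorem lev_eq {d : ℕ} {ι : Type} [Fintype ι] (v : ι → Eu d) (hv : Spn v) (x : Eu d) :
    lev v x = ∑ i, ⟪v i, fi v x⟫ ^ 2 := by
  have h : ⟪x, fi v x⟫ = ⟪fr v (fi v x), fi v x⟫ := by rw [fr_fi v hv x]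
  rw [lev, h, N1_inner_fr]
  refine Finset.sum_congr rfl fun i _ => ?_
  ring

theorem lev_nonneg {d : ℕ} {ι : Type} [Fintype ι] (v : ι → Eu d) (hv : Spn v) (x : Eu d) :
    0 ≤ lev v x := by
  rw [lev_eq v hv]
  positivity

theorem inner_sq_le {d : ℕ} {ι : Type} [Fintype ι] (v : ι → Eu d) (hv : Spn v) (x y : Eu d) :
    ⟪x, y⟫ ^ 2 ≤ lev v x * ∑ i, ⟪v i, y⟫ ^ 2 := by
  have h : ⟪x, y⟫ = ⟪fr v (fi v x), y⟫ := by rw [fr_fi v hv x]
  rw [h, N1_inner_fr, lev_eq v hv]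
  exact Finset.sum_mul_sq_le_sq_mul_sq _ _ _

theorem lev_le_one {d : ℕ} {ι : Type} [Fintype ι] (v : ι → Eu d) (hv : Spn v) (i : ι) :
    lev v (v i) ≤ 1 := by
  have h1 : ⟪v i, fi v (v i)⟫ ^ 2 ≤ lev v (v i) := by
    rw [lev_eq v hv]
    exact Finset.single_le_sum (f := fun k => ⟪v k, fi v (v i)⟫ ^ 2)
      (fun k _ => sq_nonneg _) (Finset.mem_univ i)
  have h2 : ⟪v i, fi v (v i)⟫ = lev v (v i) := rfl
  rw [h2] at h1
  have h3 := lev_nonneg v hv (v i)
  by_contra hc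
  push Not at hc
  nlinarith

theorem sum_lev {d : ℕ} {ι : Type} [Fintype ι] (v : ι → Eu d) (hv : Spn v) :
    ∑ i, lev v (v i) = d := by
  set e := EuclideanSpace.basisFun (Fin d) ℝ with he
  have h1 : ∀ i, lev v (v i) = ∑ j, ⟪v i, e j⟫ * ⟪v i, fi v (e j)⟫ := by
    intro i
    rw [lev, ← e.sum_inner_mul_inner (v i) (fi v (v i))]
    refine Finset.sum_congr rfl fun j _ => ?_
    congr 1
    rw [← fi_symm v hv, real_inner_comm]
  rw [Finset.sum_congr rfl fun i _ => h1 i, Finset.sum_comm]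
  have h2 : ∀ j, ∑ i, ⟪v i, e j⟫ * ⟪v i, fi v (e j)⟫ = 1 := by
    intro j
    have h3 : ⟪fr v (fi v (e j)), e j⟫ = 1 := by
      rw [fr_fi v hv, real_inner_self_eq_norm_sq, e.norm_eq_one]
      ring
    rw [N1_inner_fr] at h3
    rw [← h3]
    refine Finset.sum_congr rfl fun i _ => ?_
    ring
  rw [Finset.sum_congr rfl fun j _ => h2 j]
  simp

end Pool.Agent.Helper57.NS
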