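import Mathlib
import Pool.Agent.Helper57.NS.Defs
import Pool.Agent.Helper57.NS.St.N1

set_option autoImplicit false

/-!
Project NS, piece N3: invariance under linear maps.

Hints. `frm (B ∘ v) w = B ∘ frm v w ∘ B†` (expand); `det B† = det B` (via `LinearMap.adjoint`,
or matrices; e.g. `LinearMap.det_adjoint` or `LinearMap.toMatrix_adjoint`); for `det B ≠ 0` the
inverse of `fr (B ∘ v)` is `(B†)⁻¹ (fi v) B⁻¹`; `lev (B ∘ v) (B x) = ⟪B x, y⟫ = ⟪x, B† y⟫` where
`fr (B ∘ v) y = B x`, i.e. `B (fr v (B† y)) = B x`, i.e. `fr v (B† y) = x`, `B† y = fi v x`.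
-/

namespace Pool.Agent.Helper57.NS

open scoped BigOperators RealInnerProductSpace

theorem frm_smul {d : ℕ} {ι : Type} [Fintype ι] (v : ι → Eu d) (w c : ι → ℝ) :
    frm (fun i => c i • v i) w = frm v fun i => w i * c i ^ 2 := by
  refine LinearMap.ext fun x => ?_
  rw [frm_apply, frm_apply]
  refine Finset.sum_congr rfl fun i _ => ?_
  rw [smul_smul, real_inner_smul_left]
  congr 1
  ring

theorem frm_comp {d : ℕ} {ι : Type} [Fintype ι] (B : Eu d →L[ℝ] Eu d) (v : ι → Eu d) (w : ι → ℝ)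
    (x : Eu d) :
    frm (fun i => B (v i)) w x = B (frm v w (ContinuousLinearMap.adjoint B x)) := by
  rw [frm_apply, frm_apply, map_sum]
  refine Finset.sum_congr rfl fun i _ => ?_
  rw [map_smul, ContinuousLinearMap.adjoint_inner_right]

private theorem N3_det_adjoint {d : ℕ} (B : Eu d →L[ℝ] Eu d) :
    (ContinuousLinearMap.adjoint B).det = B.det := by
  have h := LinearMap.toMatrix_adjoint (EuclideanSpace.basisFun (Fin d) ℝ)
    (EuclideanSpace.basisFun (Fin d) ℝ) (B : Eu d →ₗ[ℝ] Eu d)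
  have h1 : (ContinuousLinearMap.adjoint B : Eu d →ₗ[ℝ] Eu d) =
      LinearMap.adjoint (B : Eu d →ₗ[ℝ] Eu d) := by
    rw [LinearMap.adjoint_eq_toCLM_adjoint]
    rfl
  change LinearMap.det (ContinuousLinearMap.adjoint B : Eu d →ₗ[ℝ] Eu d) =
    LinearMap.det (B : Eu d →ₗ[ℝ] Eu d)
  rw [h1, ← LinearMap.det_toMatrix (EuclideanSpace.basisFun (Fin d) ℝ).toBasis, h,
    Matrix.det_conjTranspose, LinearMap.det_toMatrix]
  simp

theorem det_frm_comp {d : ℕ} {ι : Type} [Fintype ι] (B : Eu d →L[ℝ] Eu d) (v : ι → Eu d)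
    (w : ι → ℝ) :
    LinearMap.det (frm (fun i => B (v i)) w) = B.det ^ 2 * LinearMap.det (frm v w) := by
  have h : frm (fun i => B (v i)) w = (B : Eu d →ₗ[ℝ] Eu d) ∘ₗ (frm v w ∘ₗ
      (ContinuousLinearMap.adjoint B : Eu d →ₗ[ℝ] Eu d)) :=
    LinearMap.ext fun x => frm_comp B v w x
  rw [h, LinearMap.det_comp, LinearMap.det_comp]
  have h2 := N3_det_adjoint B
  change B.det * (_ * (ContinuousLinearMap.adjoint B).det) = _
  rw [h2]
  ring

private theorem N3_surj {d : ℕ} (B : Eu d →L[ℝ] Eu d) (hB : B.det ≠ 0) (x : Eu d) :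
    ∃ y, B y = x := by
  have h : IsUnit (B : Eu d →ₗ[ℝ] Eu d) := by
    rw [LinearMap.isUnit_iff_isUnit_det]
    exact isUnit_iff_ne_zero.2 hB
  exact ((Module.End.isUnit_iff _).1 h).2 x

private theorem N3_inj {d : ℕ} (B : Eu d →L[ℝ] Eu d) (hB : B.det ≠ 0) :
    Function.Injective B := by
  have h : IsUnit (B : Eu d →ₗ[ℝ] Eu d) := by
    rw [LinearMap.isUnit_iff_isUnit_det]
    exact isUnit_iff_ne_zero.2 hB
  exact ((Module.End.isUnit_iff _).1 h).1

theorem spn_comp {d : ℕ} {ι : Type} (B : Eu d →L[ℝ] Eu d) (hB : B.det ≠ 0)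
    (v : ι → Eu d) (hv : Spn v) : Spn fun i => B (v i) := by
  intro y hy
  have h1 : ContinuousLinearMap.adjoint B y = 0 := by
    apply hv
    intro i
    rw [ContinuousLinearMap.adjoint_inner_right]
    exact hy i
  have hB' : (ContinuousLinearMap.adjoint B).det ≠ 0 := by
    rw [N3_det_adjoint]
    exact hB
  exact N3_inj _ hB' (by rw [h1, map_zero])

theorem lev_comp {d : ℕ} {ι : Type} [Fintype ι] (B : Eu d →L[ℝ] Eu d) (hB : B.det ≠ 0)
    (v : ι → Eu d) (hv : Spn v) (x : Eu d) :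
    lev (fun i => B (v i)) (B x) = lev v x := by
  have h1 := fr_fi (fun i => B (v i)) (spn_comp B hB v hv) (B x)
  unfold fr at h1
  rw [frm_comp] at h1
  have h2 := N3_inj B hB h1
  have h3 := fi_fr v hv (ContinuousLinearMap.adjoint B (fi (fun i => B (v i)) (B x)))
  unfold fr at h3
  rw [h2] at h3
  unfold lev
  rw [h3, ContinuousLinearMap.adjoint_inner_right]

end Pool.Agent.Helper57.NS
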