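import Mathlib
import Pool.Agent.Helper57.NS.Defs
import Pool.Agent.Helper57.NS.St.N1

set_option autoImplicit false

/-!
Project NS, piece N4: adding one vector (`v j`) to a spanning list `v' = v ∘ j.succAbove`.

Hints. `fr v x = fr v' x + ⟪v j, x⟫ v j` (`Fin.sum_univ_succAbove`).  Put `z = fi v' (v j)`,
`q = ⟪v j, z⟫ = lev v' (v j) ≥ 0`.  `fr v = fr v' ∘ (1 + ⟪v j, ·⟫ z)`, a transvection:
`LinearMap.transvection.det` gives `det = 1 + q`.  Inverse: `fi v x = fi v' x - (⟪z, x⟫ / (1 + q)) z`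
(check `fr v (...) = x`), so `lev v x = lev v' x - ⟪z, x⟫ ^ 2 / (1 + q)`; `δ i = ⟪z, v' i⟫ ^ 2 / (1 + q)`,
`∑ ⟪z, v' i⟫ ^ 2 = ⟪z, fr v' z⟫ = q`.
`spn_remove`: if `v'` does not span, there is `y ≠ 0` orthogonal to all `v' i`; `fr v y = ⟪v j, y⟫ v j`,
`⟪v j, y⟫ ≠ 0`, so `fi v (v j) = y / ⟪v j, y⟫` and `lev v (v j) = 1`.
-/

namespace Pool.Agent.Helper57.NS

open scoped BigOperators RealInnerProductSpace

private theorem N4_fr {d n : ℕ} (v : Fin (n + 1) → Eu d) (j : Fin (n + 1)) (x : Eu d) :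
    fr v x = ⟪v j, x⟫ • v j + fr (fun i : Fin n => v (j.succAbove i)) x := by
  rw [fr_apply, fr_apply, Fin.sum_univ_succAbove _ j]

theorem add_one {d n : ℕ} (v : Fin (n + 1) → Eu d) (j : Fin (n + 1))
    (hv : Spn fun i : Fin n => v (j.succAbove i)) :
    Spn v ∧ 0 ≤ lev (fun i : Fin n => v (j.succAbove i)) (v j) ∧
      LinearMap.det (fr v) = LinearMap.det (fr fun i : Fin n => v (j.succAbove i)) *
        (1 + lev (fun i : Fin n => v (j.succAbove i)) (v j)) ∧
      lev v (v j) = lev (fun i : Fin n => v (j.succAbove i)) (v j) /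
        (1 + lev (fun i : Fin n => v (j.succAbove i)) (v j)) ∧
      ∃ δ : Fin n → ℝ, (∀ i, 0 ≤ δ i) ∧ ∑ i, δ i = lev v (v j) ∧
        ∀ i, lev v (v (j.succAbove i)) =
          lev (fun i : Fin n => v (j.succAbove i)) (v (j.succAbove i)) - δ i := by
  set v' : Fin n → Eu d := fun i : Fin n => v (j.succAbove i) with hv'
  have hS : Spn v := fun y hy => hv y fun i => hy _
  have hq0 : 0 ≤ lev v' (v j) := lev_nonneg v' hv _
  set q : ℝ := lev v' (v j) with hq
  set z : Eu d := fi v' (v j) with hz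
  have hqz : ⟪v j, z⟫ = q := rfl
  have hfz : fr v' z = v j := fr_fi v' hv (v j)
  have hfr : ∀ x, fr v x = ⟪v j, x⟫ • v j + fr v' x := fun x => N4_fr v j x
  have h1q : 0 < 1 + q := by linarith
  have hfi : ∀ x, fi v x = fi v' x - (⟪z, x⟫ / (1 + q)) • z := by
    intro x
    have h1 : fr v (fi v' x - (⟪z, x⟫ / (1 + q)) • z) = x := by
      have h2 : ⟪v j, fi v' x⟫ = ⟪z, x⟫ := by rw [hz, fi_symm v' hv]
      rw [hfr, map_sub, map_smul, hfz, fr_fi v' hv, inner_sub_right, real_inner_smul_right,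
        hqz, h2]
      have h3 : ⟪z, x⟫ - ⟪z, x⟫ / (1 + q) * q = ⟪z, x⟫ / (1 + q) := by
        field_simp
        ring
      rw [h3]
      abel
    conv_lhs => rw [← h1]
    rw [fi_fr v hS]
  have hlev : ∀ x, lev v x = lev v' x - ⟪z, x⟫ ^ 2 / (1 + q) := by
    intro x
    unfold lev
    rw [hfi, inner_sub_right, real_inner_smul_right, real_inner_comm x z]
    ring
  have hlj : lev v (v j) = q / (1 + q) := by
    rw [hlev, real_inner_comm, hqz, ← hq]
    field_simp
    ring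
  refine ⟨hS, hq0, ?_, hlj, fun i => ⟪z, v' i⟫ ^ 2 / (1 + q), ?_, ?_, ?_⟩
  · have hcomp : fr v = (fr v') ∘ₗ (LinearMap.transvection (innerₛₗ ℝ (v j)) z) := by
      ext1 x
      rw [LinearMap.comp_apply, LinearMap.transvection.apply, hfr, map_add, map_smul, hfz]
      rw [innerₛₗ_apply_apply]
      abel
    rw [hcomp, LinearMap.det_comp, LinearMap.transvection.det, innerₛₗ_apply_apply, hqz]
  · intro i
    positivity
  · rw [hlj, ← Finset.sum_div]
    congr 1
    have h1 : ⟪fr v' z, z⟫ = ∑ i, ⟪v' i, z⟫ * ⟪v' i, z⟫ := N1_inner_fr v' z z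
    rw [hfz, hqz] at h1
    rw [h1]
    refine Finset.sum_congr rfl fun i _ => ?_
    rw [real_inner_comm]
    ring
  · intro i
    exact hlev _

theorem spn_remove {d n : ℕ} (v : Fin (n + 1) → Eu d) (j : Fin (n + 1)) (hv : Spn v)
    (h : lev v (v j) < 1) : Spn fun i : Fin n => v (j.succAbove i) := by
  intro y hy
  by_contra hne
  have h1 : fr v y = ⟪v j, y⟫ • v j := by
    rw [N4_fr v j, fr_apply]
    have : ∑ i : Fin n, ⟪v (j.succAbove i), y⟫ • v (j.succAbove i) = 0 :=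
      Finset.sum_eq_zero fun i _ => by rw [hy i, zero_smul]
    rw [this, add_zero]
  have h2 : ⟪v j, y⟫ ≠ 0 := by
    intro h0
    refine hne (hv y fun i => ?_)
    rcases Fin.eq_self_or_eq_succAbove j i with hi | ⟨i', hi⟩
    · rw [hi]; exact h0
    · rw [hi]; exact hy i'
  have h3 : y = ⟪v j, y⟫ • fi v (v j) := by
    conv_lhs => rw [← fi_fr v hv y, h1, map_smul]
  have h4 : ⟪v j, y⟫ = ⟪v j, y⟫ * lev v (v j) := by
    conv_lhs => rw [h3, real_inner_smul_right]
    rfl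
  have h5 : lev v (v j) = 1 := by
    have := mul_left_cancel₀ h2 (h4.symm.trans (mul_one _).symm)
    exact this
  linarith

end Pool.Agent.Helper57.NS
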