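import Mathlib
import Pool.Agent.Helper57.NS.Defs
import Pool.Agent.Helper57.NS.St.N1
import Pool.Agent.Helper57.NS.St.N3

set_option autoImplicit false

/-!
Project NS, piece N2: weighted determinants.

Hints. Tight case first (`fr v = id`): `frm v w` is symmetric with eigenvectors `e k` and
eigenvalues `ν k = ∑ i, w i ⟪v i, e k⟫ ^ 2`, `∑ i ⟪v i, e k⟫ ^ 2 = 1`, `∑ k ⟪v i, e k⟫ ^ 2 = ‖v i‖ ^ 2`;
Jensen for `log` (exactly as in `Pool/Agent/Helper67/QH/DetLe.lean`) gives
`log ν k ≥ ∑ i ⟪v i, e k⟫ ^ 2 log w i`, and `log ν k ≤ ν k - 1`; sum over `k`;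
`lev v (v i) = ‖v i‖ ^ 2`.  General case: let `e` be an orthonormal eigenbasis of `fr v`,
eigenvalues `μ k > 0`, `B x = ∑ k, (√(μ k))⁻¹ ⟪e k, x⟫ e k`; then `B (fr v (B x)) = x`, `B` symmetric,
so `fr (B ∘ v) = id` (`frm_comp` of N3) and everything is invariant (`det_frm_comp`, `lev_comp`).
-/

namespace Pool.Agent.Helper57.NS

open scoped BigOperators RealInnerProductSpace

private theorem n2_inner {d : ℕ} {ι : Type} [Fintype ι] (v : ι → Eu d) (w : ι → ℝ) (x y : Eu d) :
    ⟪frm v w x, y⟫ = ∑ i, w i * ⟪v i, x⟫ * ⟪v i, y⟫ := by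
  rw [frm_apply, sum_inner]
  refine Finset.sum_congr rfl fun i _ => ?_
  rw [inner_smul_left]; simp

private theorem n2_symm {d : ℕ} {ι : Type} [Fintype ι] (v : ι → Eu d) (w : ι → ℝ) :
    (frm v w).IsSymmetric := by
  intro x y
  rw [n2_inner, real_inner_comm, n2_inner]
  refine Finset.sum_congr rfl fun i _ => ?_
  ring

/-- the tight case -/
private theorem n2_tight {d : ℕ} {ι : Type} [Fintype ι] (u : ι → Eu d) (hu : fr u = 1)
    (w : ι → ℝ) (hw : ∀ i, 0 < w i) :
    ∑ i, ‖u i‖ ^ 2 * Real.log (w i) ≤ Real.log (LinearMap.det (frm u w)) ∧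
      Real.log (LinearMap.det (frm u w)) ≤ ∑ i, ‖u i‖ ^ 2 * (w i - 1) := by
  classical
  have hPs := n2_symm u w
  have hn : Module.finrank ℝ (Eu d) = d := by simp
  set e := hPs.eigenvectorBasis hn with he
  set t := hPs.eigenvalues hn with ht
  have hPe : ∀ k, frm u w (e k) = t k • e k := fun k => hPs.apply_eigenvectorBasis hn k
  have hsum : ∀ k, ∑ i, ⟪u i, e k⟫ ^ 2 = 1 := by
    intro k
    have h1 := n2_inner u (fun _ => 1) (e k) (e k)
    have h2 : frm u (fun _ => 1) (e k) = e k := by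
      have : fr u (e k) = e k := by rw [hu]; rfl
      exact this
    rw [h2, real_inner_self_eq_norm_sq, e.norm_eq_one] at h1
    calc ∑ i, ⟪u i, e k⟫ ^ 2 = ∑ i, 1 * ⟪u i, e k⟫ * ⟪u i, e k⟫ :=
          Finset.sum_congr rfl fun i _ => by ring
      _ = 1 := by rw [← h1]; norm_num
  have htk : ∀ k, t k = ∑ i, ⟪u i, e k⟫ ^ 2 * w i := by
    intro k
    have h1 := n2_inner u w (e k) (e k)
    rw [hPe k, inner_smul_left, real_inner_self_eq_norm_sq, e.norm_eq_one] at h1
    simp only [conj_trivial, one_pow, mul_one] at h1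
    rw [h1]
    exact Finset.sum_congr rfl fun i _ => by ring
  have htpos : ∀ k, 0 < t k := by
    intro k
    have hne : ∃ i, ⟪u i, e k⟫ ^ 2 ≠ 0 := by
      by_contra hcon
      push Not at hcon
      have := hsum k
      rw [Finset.sum_eq_zero fun i _ => hcon i] at this
      exact zero_ne_one this
    obtain ⟨i, hi⟩ := hne
    rw [htk k]
    refine Finset.sum_pos' (fun j _ => mul_nonneg (sq_nonneg _) (hw j).le) ⟨i, Finset.mem_univ _, ?_⟩
    exact mul_pos (lt_of_le_of_ne (sq_nonneg _) (Ne.symm hi)) (hw i)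
  have hdet : LinearMap.det (frm u w) = ∏ k, t k := by
    have h2 := hPs.det_eq_prod_eigenvalues hn
    simp only [RCLike.ofReal_real_eq_id, id] at h2
    exact h2
  have hnorm : ∀ i, ‖u i‖ ^ 2 = ∑ k, ⟪u i, e k⟫ ^ 2 := fun i => (e.sum_sq_inner_left (u i)).symm
  rw [hdet, Real.log_prod fun k _ => (htpos k).ne']
  constructor
  · calc ∑ i, ‖u i‖ ^ 2 * Real.log (w i) = ∑ k, ∑ i, ⟪u i, e k⟫ ^ 2 * Real.log (w i) := by
          rw [Finset.sum_comm]
          refine Finset.sum_congr rfl fun i _ => ?_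
          rw [hnorm i, Finset.sum_mul]
      _ ≤ ∑ k, Real.log (t k) := by
          refine Finset.sum_le_sum fun k _ => ?_
          have h1 := strictConcaveOn_log_Ioi.concaveOn.le_map_sum (t := Finset.univ)
            (w := fun i => ⟪u i, e k⟫ ^ 2) (p := w) (fun i _ => sq_nonneg _)
            (hsum k) (fun i _ => hw i)
          simp only [smul_eq_mul] at h1
          rw [htk k]
          exact h1
  · calc ∑ k, Real.log (t k) ≤ ∑ k, ∑ i, ⟪u i, e k⟫ ^ 2 * (w i - 1) := by
          refine Finset.sum_le_sum fun k _ => ?_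
          have h1 := Real.log_le_sub_one_of_pos (htpos k)
          refine h1.trans (le_of_eq ?_)
          have h2 : ∑ i, ⟪u i, e k⟫ ^ 2 * (w i - 1)
              = ∑ i, ⟪u i, e k⟫ ^ 2 * w i - ∑ i, ⟪u i, e k⟫ ^ 2 := by
            rw [← Finset.sum_sub_distrib]
            exact Finset.sum_congr rfl fun i _ => by ring
          rw [h2, ← htk k, hsum k]
      _ = ∑ i, ‖u i‖ ^ 2 * (w i - 1) := by
          rw [Finset.sum_comm]
          refine Finset.sum_congr rfl fun i _ => ?_
          rw [hnorm i, Finset.sum_mul]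

/-- the whitening map -/
private theorem n2_white {d : ℕ} {ι : Type} [Fintype ι] (v : ι → Eu d) (hv : Spn v) :
    ∃ B : Eu d →L[ℝ] Eu d, B.det ≠ 0 ∧ fr (fun i => B (v i)) = 1 := by
  classical
  have hPs := n2_symm v fun _ => (1 : ℝ)
  have hn : Module.finrank ℝ (Eu d) = d := by simp
  set e := hPs.eigenvectorBasis hn with he
  set t := hPs.eigenvalues hn with ht
  have hPe : ∀ k, frm v (fun _ => 1) (e k) = t k • e k :=
    fun k => hPs.apply_eigenvectorBasis hn k
  have htk : ∀ k, t k = ∑ i, ⟪v i, e k⟫ ^ 2 := by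
    intro k
    have h1 := n2_inner v (fun _ => 1) (e k) (e k)
    rw [hPe k, inner_smul_left, real_inner_self_eq_norm_sq, e.norm_eq_one] at h1
    simp only [conj_trivial, one_pow, mul_one, one_mul] at h1
    rw [h1]
    exact Finset.sum_congr rfl fun i _ => by ring
  have htpos : ∀ k, 0 < t k := by
    intro k
    have hne : ∃ i, ⟪v i, e k⟫ ≠ 0 := by
      by_contra hcon
      push Not at hcon
      have h1 := hv (e k) hcon
      have h2 := e.norm_eq_one k
      rw [h1, norm_zero] at h2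
      exact zero_ne_one h2
    obtain ⟨i, hi⟩ := hne
    rw [htk k]
    exact Finset.sum_pos' (fun j _ => sq_nonneg _) ⟨i, Finset.mem_univ _, by positivity⟩
  set b : Eu d →ₗ[ℝ] Eu d := frm (fun k => e k) fun k => (√(t k))⁻¹ with hb
  set B : Eu d →L[ℝ] Eu d := LinearMap.toContinuousLinearMap b with hB
  have hBb : ∀ x, B x = b x := fun x => rfl
  have hbs : b.IsSymmetric := n2_symm _ _
  have hadj : ContinuousLinearMap.adjoint B = B := by
    symm
    rw [ContinuousLinearMap.eq_adjoint_iff]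
    intro x y
    rw [hBb, hBb]
    exact hbs x y
  have hbe : ∀ k, b (e k) = (√(t k))⁻¹ • e k := by
    intro k
    rw [hb, frm_apply]
    rw [Finset.sum_eq_single k]
    · rw [real_inner_self_eq_norm_sq, e.norm_eq_one]; norm_num
    · intro j _ hjk
      rw [e.inner_eq_zero hjk, mul_zero, zero_smul]
    · intro h; exact absurd (Finset.mem_univ k) h
  have hfr : fr (fun i => B (v i)) = 1 := by
    apply e.toBasis.ext
    intro k
    rw [e.coe_toBasis]
    have h1 : fr (fun i => B (v i)) (e k) = B (fr v (ContinuousLinearMap.adjoint B (e k))) :=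
      frm_comp B v (fun _ => 1) (e k)
    rw [h1, hadj, hBb, hBb, hbe, map_smul, map_smul]
    have h2 : fr v (e k) = t k • e k := hPe k
    rw [h2, map_smul, hbe, smul_smul, smul_smul]
    have h3 : (√(t k))⁻¹ * t k * (√(t k))⁻¹ = 1 := by
      have h4 : 0 < √(t k) := Real.sqrt_pos.2 (htpos k)
      have h5 : √(t k) * √(t k) = t k := Real.mul_self_sqrt (htpos k).le
      field_simp
      nlinarith
    rw [h3, one_smul]
    rfl
  refine ⟨B, ?_, hfr⟩
  intro h0
  have h1 : LinearMap.det (fr fun i => B (v i)) = B.det ^ 2 * LinearMap.det (fr v) :=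
    det_frm_comp B v fun _ => 1
  rw [hfr, h0] at h1
  simp at h1

private theorem n2_main {d : ℕ} {ι : Type} [Fintype ι] (v : ι → Eu d) (hv : Spn v) (w : ι → ℝ)
    (hw : ∀ i, 0 < w i) :
    ∑ i, lev v (v i) * Real.log (w i) ≤
      Real.log (LinearMap.det (frm v w)) - Real.log (LinearMap.det (fr v)) ∧
    Real.log (LinearMap.det (frm v w)) - Real.log (LinearMap.det (fr v)) ≤
      ∑ i, lev v (v i) * (w i - 1) := by
  obtain ⟨B, hB, hfr⟩ := n2_white v hv
  have h1 := n2_tight (fun i => B (v i)) hfr w hw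
  have hfi : fi (fun i => B (v i)) = 1 := by
    unfold fi; rw [hfr, Ring.inverse_one]
  have hlev : ∀ i, ‖B (v i)‖ ^ 2 = lev v (v i) := by
    intro i
    rw [← lev_comp B hB v hv (v i)]
    unfold lev
    rw [hfi]
    exact (real_inner_self_eq_norm_sq _).symm
  simp only [hlev] at h1
  have h2 := det_frm_comp B v w
  have h3 : LinearMap.det (fr fun i => B (v i)) = B.det ^ 2 * LinearMap.det (fr v) :=
    det_frm_comp B v fun _ => 1
  rw [hfr, map_one] at h3
  have h4 : Real.log (LinearMap.det (frm v w)) - Real.log (LinearMap.det (fr v))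
      = Real.log (LinearMap.det (frm (fun i => B (v i)) w)) := by
    have hB2 : B.det ^ 2 ≠ 0 := pow_ne_zero 2 hB
    rw [h2, Real.log_mul hB2 (det_frm_pos v hv w hw).ne']
    have h5 := congrArg Real.log h3
    rw [Real.log_one, Real.log_mul hB2 (det_fr_pos v hv).ne'] at h5
    linarith
  rw [h4]
  exact h1

theorem log_det_ge {d : ℕ} {ι : Type} [Fintype ι] (v : ι → Eu d) (hv : Spn v) (w : ι → ℝ)
    (hw : ∀ i, 0 < w i) :
    ∑ i, lev v (v i) * Real.log (w i) ≤
      Real.log (LinearMap.det (frm v w)) - Real.log (LinearMap.det (fr v)) :=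
  (n2_main v hv w hw).1

theorem log_det_le {d : ℕ} {ι : Type} [Fintype ι] (v : ι → Eu d) (hv : Spn v) (w : ι → ℝ)
    (hw : ∀ i, 0 < w i) :
    Real.log (LinearMap.det (frm v w)) - Real.log (LinearMap.det (fr v)) ≤
      ∑ i, lev v (v i) * (w i - 1) :=
  (n2_main v hv w hw).2

end Pool.Agent.Helper57.NS
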