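import Mathlib
import Pool.Agent.Helper50.QH.LogBound
import Pool.Agent.Helper57.NS.Defs
import Pool.Agent.Helper57.NS.St.N1
import Pool.Agent.Helper57.NS.St.N2
import Pool.Agent.Helper57.NS.St.N4

set_option autoImplicit false

/-!
Project NS, piece N5: the exchange estimates in normalised coordinates
((1e) and (1f) of `/team-store/QH_nonsym_proof.md`).

Hints. Write `r = ‖x‖`, `L l = 1 - ⟪u (g l), x⟫ > 0`, `|⟪u i, x⟫| ≤ r`.
`Helper50.QH.log_aux` gives `-∑ c i log (1 - ⟪u i, x⟫) ≥ ⟪∑ c i u i, x⟫ + r ^ 2 / (2 (1 + r))`.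
`log_det_ge` (N2) for the list `u ∘ g` with weights `(L l ^ 2)⁻¹`:
`log det (frm ..) ≥ log det (fr (u ∘ g)) - 2 ∑ lev l * log (L l)`.
`exch_add`: `det (fr (u ∘ g)) = det (fr (u ∘ f)) (1 + q)`, `lev` of the old vectors drops by `δ l` (N4),
`-l' log L ≥ l' ⟪u, x⟫ ≥ l ⟪u, x⟫ - δ` (`log L ≤ L - 1`, `⟪u, x⟫ ≤ 1`, `l' = l - δ ≥ 0`), and
`-l'_j log L_j ≥ -log (1 + r)`; sum of the `δ` is `≤ 1`; then `Helper50.QH.final_num` (multiply by 2) and
`2 log (14 / 3) ≤ log 22`.
`exch_remove`: the removed list is `f = g ∘ j.succAbove`; apply N4 (`spn_remove`, `add_one`) to it: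
`det (fr (u ∘ g)) = det (fr (u ∘ f)) (1 + q)`, `1 - lev_g = (1 + q)⁻¹`, levels of `f` are
`l + δ`, `-δ log L ≥ -δ log (1 + r)`, `∑ δ = lev_g ≤ 1`, `lev_g ⟪u (g j), x⟫ ≤ 1`.
-/

namespace Pool.Agent.Helper57.NS

open scoped BigOperators RealInnerProductSpace

private theorem n5_c {d : ℕ} {I : Type} [Fintype I] (u : I → Eu d) (c : I → ℝ)
    (hc : ∀ i, 0 ≤ c i) (hu : ∀ i, ‖u i‖ ≤ 1)
    (hiso : ∀ w : Eu d, ∑ i, c i * ⟪u i, w⟫ ^ 2 = ‖w‖ ^ 2)
    (x : Eu d) (hx : ∀ i, ⟪u i, x⟫ < 1) :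
    ∑ i, c i * Real.log (1 - ⟪u i, x⟫) ≤
      -(∑ i, c i * ⟪u i, x⟫) - ‖x‖ ^ 2 / (2 * (1 + ‖x‖)) := by
  have hz : ∀ i, |⟪u i, x⟫| ≤ ‖x‖ := by
    intro i
    refine (abs_real_inner_le_norm _ _).trans ?_
    exact mul_le_of_le_one_left (norm_nonneg x) (hu i)
  rw [← hiso x, Finset.sum_div, ← Finset.sum_neg_distrib, ← Finset.sum_sub_distrib]
  refine Finset.sum_le_sum fun i _ => ?_
  have a1 := Pool.Agent.Helper50.QH.log_aux (hx i)
  have a2 : ⟪u i, x⟫ ^ 2 / (2 * (1 + ‖x‖)) ≤ ⟪u i, x⟫ ^ 2 / (2 * (1 + |⟪u i, x⟫|)) := by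
    apply div_le_div_of_nonneg_left (sq_nonneg _) (by positivity)
    have := hz i
    linarith
  have a3 : Real.log (1 - ⟪u i, x⟫) ≤ -⟪u i, x⟫ - ⟪u i, x⟫ ^ 2 / (2 * (1 + ‖x‖)) := by
    linarith
  calc c i * Real.log (1 - ⟪u i, x⟫)
      ≤ c i * (-⟪u i, x⟫ - ⟪u i, x⟫ ^ 2 / (2 * (1 + ‖x‖))) :=
        mul_le_mul_of_nonneg_left a3 (hc i)
    _ = -(c i * ⟪u i, x⟫) - c i * ⟪u i, x⟫ ^ 2 / (2 * (1 + ‖x‖)) := by ring

private theorem n5_num : 2 * Real.log (14 / 3) ≤ Real.log 22 := by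
  have h : 2 * Real.log (14 / 3) = Real.log ((14 / 3 : ℝ) ^ 2) := by
    rw [Real.log_pow]; norm_num
  rw [h]
  exact Real.log_le_log (by norm_num) (by norm_num)

/-- the weights `(1 - z)⁻²` in logarithmic form -/
private theorem n5_w {z : ℝ} : Real.log (((1 - z) ^ 2)⁻¹) = -(2 * Real.log (1 - z)) := by
  rw [Real.log_inv, Real.log_pow]
  norm_num

private theorem n5_wpos {z : ℝ} (hz : z < 1) : 0 < ((1 - z) ^ 2)⁻¹ := by
  have : 0 < 1 - z := by linarith
  positivity

private theorem n5_log {z r : ℝ} (hz : z < 1) (hr : |z| ≤ r) :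
    Real.log (1 - z) ≤ Real.log (1 + r) ∧ 0 ≤ Real.log (1 + r) ∧ Real.log (1 - z) ≤ -z := by
  have h0 : 0 ≤ |z| := abs_nonneg z
  refine ⟨Real.log_le_log (by linarith) (by linarith [neg_abs_le z]),
    Real.log_nonneg (by linarith), ?_⟩
  have := Real.log_le_sub_one_of_pos (show (0 : ℝ) < 1 - z by linarith)
  linarith

theorem exch_add {d n : ℕ} {I : Type} [Fintype I] (u : I → Eu d) (c : I → ℝ)
    (hc : ∀ i, 0 ≤ c i) (hu : ∀ i, ‖u i‖ ≤ 1)
    (hiso : ∀ w : Eu d, ∑ i, c i * ⟪u i, w⟫ ^ 2 = ‖w‖ ^ 2)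
    (x : Eu d) (hx : ∀ i, ⟪u i, x⟫ < 1) (g : Fin (n + 1) → I) (j : Fin (n + 1))
    (hf : Spn fun l : Fin n => u (g (j.succAbove l)))
    (hcen : ∑ i, c i • u i = -∑ l : Fin n,
      lev (fun l : Fin n => u (g (j.succAbove l))) (u (g (j.succAbove l))) •
        u (g (j.succAbove l))) :
    Real.log (LinearMap.det (fr fun l : Fin n => u (g (j.succAbove l)))) +
        Real.log (1 + lev (fun l : Fin n => u (g (j.succAbove l))) (u (g j))) - Real.log 22 ≤
      Real.log (LinearMap.det (frm (fun l => u (g l)) fun l => ((1 - ⟪u (g l), x⟫) ^ 2)⁻¹)) -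
        2 * ∑ i, c i * Real.log (1 - ⟪u i, x⟫) := by
  have hr0 : 0 ≤ ‖x‖ := norm_nonneg x
  have hz : ∀ i, |⟪u i, x⟫| ≤ ‖x‖ := by
    intro i
    refine (abs_real_inner_le_norm _ _).trans ?_
    exact mul_le_of_le_one_left hr0 (hu i)
  obtain ⟨hS, hq0, hdet, hlj, δ, hδ0, hδs, hδ⟩ := add_one (fun l => u (g l)) j hf
  have h1 := log_det_ge (fun l => u (g l)) hS (fun l => ((1 - ⟪u (g l), x⟫) ^ 2)⁻¹)
    (fun l => n5_wpos (hx (g l)))
  simp only [n5_w] at h1
  have hdf := det_fr_pos (fun l : Fin n => u (g (j.succAbove l))) hf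
  have h2 : Real.log (LinearMap.det (fr fun l => u (g l))) =
      Real.log (LinearMap.det (fr fun l : Fin n => u (g (j.succAbove l)))) +
        Real.log (1 + lev (fun l : Fin n => u (g (j.succAbove l))) (u (g j))) := by
    rw [hdet, Real.log_mul hdf.ne' (by linarith)]
  have hl0 : 0 ≤ lev (fun l => u (g l)) (u (g j)) := lev_nonneg _ hS _
  have hl1 : lev (fun l => u (g l)) (u (g j)) ≤ 1 := lev_le_one (fun l => u (g l)) hS j
  obtain ⟨b1, b2, b3⟩ := n5_log (hx (g j)) (hz (g j))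
  -- the sum over the list
  have h3 : ∑ l, lev (fun l => u (g l)) (u (g l)) * -(2 * Real.log (1 - ⟪u (g l), x⟫)) ≥
      2 * (∑ l : Fin n, lev (fun l : Fin n => u (g (j.succAbove l))) (u (g (j.succAbove l))) *
        ⟪u (g (j.succAbove l)), x⟫ - 1 - Real.log (1 + ‖x‖)) := by
    rw [Fin.sum_univ_succAbove _ j]
    have h4 : ∑ l : Fin n, lev (fun l => u (g l)) (u (g (j.succAbove l))) *
        -(2 * Real.log (1 - ⟪u (g (j.succAbove l)), x⟫)) ≥
        ∑ l : Fin n, 2 * (lev (fun l : Fin n => u (g (j.succAbove l))) (u (g (j.succAbove l))) *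
          ⟪u (g (j.succAbove l)), x⟫ - δ l) := by
      refine Finset.sum_le_sum fun l _ => ?_
      obtain ⟨_, _, c3⟩ := n5_log (hx (g (j.succAbove l))) (hz (g (j.succAbove l)))
      have c4 : 0 ≤ lev (fun l => u (g l)) (u (g (j.succAbove l))) := lev_nonneg _ hS _
      have c5 := hδ l
      have c6 := hδ0 l
      have c7 := hx (g (j.succAbove l))
      have c8 : lev (fun l => u (g l)) (u (g (j.succAbove l))) *
          Real.log (1 - ⟪u (g (j.succAbove l)), x⟫) ≤
          lev (fun l => u (g l)) (u (g (j.succAbove l))) * -⟪u (g (j.succAbove l)), x⟫ :=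
        mul_le_mul_of_nonneg_left c3 c4
      have c9 : lev (fun l => u (g l)) (u (g (j.succAbove l))) * ⟪u (g (j.succAbove l)), x⟫ =
          lev (fun l : Fin n => u (g (j.succAbove l))) (u (g (j.succAbove l))) *
          ⟪u (g (j.succAbove l)), x⟫ - δ l * ⟪u (g (j.succAbove l)), x⟫ := by
        have : lev (fun l => u (g l)) (u (g (j.succAbove l))) =
          lev (fun l : Fin n => u (g (j.succAbove l))) (u (g (j.succAbove l))) - δ l := c5
        rw [this]; ring
      have c10 : δ l * ⟪u (g (j.succAbove l)), x⟫ ≤ δ l * 1 :=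
        mul_le_mul_of_nonneg_left c7.le c6
      linarith
    have h5 : ∑ l : Fin n,
        2 * (lev (fun l : Fin n => u (g (j.succAbove l))) (u (g (j.succAbove l))) *
          ⟪u (g (j.succAbove l)), x⟫ - δ l) =
        2 * (∑ l : Fin n,
          lev (fun l : Fin n => u (g (j.succAbove l))) (u (g (j.succAbove l))) *
          ⟪u (g (j.succAbove l)), x⟫ - lev (fun l => u (g l)) (u (g j))) := by
      rw [← Finset.mul_sum, Finset.sum_sub_distrib, hδs]
    have h6 : lev (fun l => u (g l)) (u (g j)) * Real.log (1 - ⟪u (g j), x⟫) ≤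
        lev (fun l => u (g l)) (u (g j)) * Real.log (1 + ‖x‖) :=
      mul_le_mul_of_nonneg_left b1 hl0
    -- combine: keep the level of the new vector
    have h7 : lev (fun l => u (g l)) (u (g j)) * Real.log (1 + ‖x‖) ≤ Real.log (1 + ‖x‖) :=
      mul_le_of_le_one_left b2 hl1
    linarith
  have h8 := n5_c u c hc hu hiso x hx
  have h9 : ∑ i, c i * ⟪u i, x⟫ =
      -∑ l : Fin n, lev (fun l : Fin n => u (g (j.succAbove l))) (u (g (j.succAbove l))) *
        ⟪u (g (j.succAbove l)), x⟫ := by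
    have := congrArg (fun v => ⟪v, x⟫) hcen
    simp only [sum_inner, real_inner_smul_left, inner_neg_left] at this
    exact this
  have h10 := Pool.Agent.Helper50.QH.final_num hr0
  have h11 := n5_num
  linarith

theorem exch_remove {d n : ℕ} {I : Type} [Fintype I] (u : I → Eu d) (c : I → ℝ)
    (hc : ∀ i, 0 ≤ c i) (hu : ∀ i, ‖u i‖ ≤ 1)
    (hiso : ∀ w : Eu d, ∑ i, c i * ⟪u i, w⟫ ^ 2 = ‖w‖ ^ 2)
    (x : Eu d) (hx : ∀ i, ⟪u i, x⟫ < 1) (g : Fin (n + 1) → I) (j : Fin (n + 1))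
    (hg : Spn fun l => u (g l)) (hl : lev (fun l => u (g l)) (u (g j)) < 1)
    (hcen : ∑ i, c i • u i = -∑ l, lev (fun l => u (g l)) (u (g l)) • u (g l)) :
    Real.log (LinearMap.det (fr fun l => u (g l))) +
        Real.log (1 - lev (fun l => u (g l)) (u (g j))) - Real.log 22 ≤
      Real.log (LinearMap.det (frm (fun l : Fin n => u (g (j.succAbove l)))
          fun l => ((1 - ⟪u (g (j.succAbove l)), x⟫) ^ 2)⁻¹)) -
        2 * ∑ i, c i * Real.log (1 - ⟪u i, x⟫) := by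
  have hr0 : 0 ≤ ‖x‖ := norm_nonneg x
  have hz : ∀ i, |⟪u i, x⟫| ≤ ‖x‖ := by
    intro i
    refine (abs_real_inner_le_norm _ _).trans ?_
    exact mul_le_of_le_one_left hr0 (hu i)
  have hf : Spn fun l : Fin n => u (g (j.succAbove l)) := spn_remove (fun l => u (g l)) j hg hl
  obtain ⟨hS, hq0, hdet, hlj, δ, hδ0, hδs, hδ⟩ := add_one (fun l => u (g l)) j hf
  have h1 := log_det_ge (fun l : Fin n => u (g (j.succAbove l))) hf
    (fun l => ((1 - ⟪u (g (j.succAbove l)), x⟫) ^ 2)⁻¹)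
    (fun l => n5_wpos (hx (g (j.succAbove l))))
  simp only [n5_w] at h1
  have hdf := det_fr_pos (fun l : Fin n => u (g (j.succAbove l))) hf
  have hq1 : 0 < 1 + lev (fun l : Fin n => u (g (j.succAbove l))) (u (g j)) := by
    have : 0 ≤ lev (fun l : Fin n => u (g (j.succAbove l))) (u (g j)) := hq0
    linarith
  have h2 : Real.log (LinearMap.det (fr fun l => u (g l))) +
      Real.log (1 - lev (fun l => u (g l)) (u (g j))) =
      Real.log (LinearMap.det (fr fun l : Fin n => u (g (j.succAbove l)))) := by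
    have e1 : 1 - lev (fun l => u (g l)) (u (g j)) =
        (1 + lev (fun l : Fin n => u (g (j.succAbove l))) (u (g j)))⁻¹ := by
      have : lev (fun l => u (g l)) (u (g j)) =
        lev (fun l : Fin n => u (g (j.succAbove l))) (u (g j)) /
        (1 + lev (fun l : Fin n => u (g (j.succAbove l))) (u (g j))) := hlj
      rw [this]
      field_simp
      ring
    have e2 : LinearMap.det (fr fun l => u (g l)) =
        LinearMap.det (fr fun l : Fin n => u (g (j.succAbove l))) *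
        (1 + lev (fun l : Fin n => u (g (j.succAbove l))) (u (g j))) := hdet
    rw [e1, e2, Real.log_mul hdf.ne' hq1.ne', Real.log_inv]
    ring
  have hl0 : 0 ≤ lev (fun l => u (g l)) (u (g j)) := lev_nonneg _ hS _
  have hb2 : 0 ≤ Real.log (1 + ‖x‖) := Real.log_nonneg (by linarith)
  have h3 : ∑ l : Fin n, lev (fun l : Fin n => u (g (j.succAbove l))) (u (g (j.succAbove l))) *
      -(2 * Real.log (1 - ⟪u (g (j.succAbove l)), x⟫)) ≥
      2 * (∑ l, lev (fun l => u (g l)) (u (g l)) * ⟪u (g l), x⟫ - 1 - Real.log (1 + ‖x‖)) := by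
    rw [Fin.sum_univ_succAbove (fun l => lev (fun l => u (g l)) (u (g l)) * ⟪u (g l), x⟫) j]
    have h4 : ∑ l : Fin n,
        lev (fun l : Fin n => u (g (j.succAbove l))) (u (g (j.succAbove l))) *
        -(2 * Real.log (1 - ⟪u (g (j.succAbove l)), x⟫)) ≥
        ∑ l : Fin n, 2 * (lev (fun l => u (g l)) (u (g (j.succAbove l))) *
          ⟪u (g (j.succAbove l)), x⟫ - δ l * Real.log (1 + ‖x‖)) := by
      refine Finset.sum_le_sum fun l _ => ?_
      obtain ⟨c1, _, c3⟩ := n5_log (hx (g (j.succAbove l))) (hz (g (j.succAbove l)))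
      have c4 : 0 ≤ lev (fun l => u (g l)) (u (g (j.succAbove l))) := lev_nonneg _ hS _
      have c6 := hδ0 l
      have c5 : lev (fun l : Fin n => u (g (j.succAbove l))) (u (g (j.succAbove l))) =
          lev (fun l => u (g l)) (u (g (j.succAbove l))) + δ l := by
        have : lev (fun l => u (g l)) (u (g (j.succAbove l))) =
          lev (fun l : Fin n => u (g (j.succAbove l))) (u (g (j.succAbove l))) - δ l := hδ l
        linarith
      have c8 : lev (fun l => u (g l)) (u (g (j.succAbove l))) *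
          Real.log (1 - ⟪u (g (j.succAbove l)), x⟫) ≤
          lev (fun l => u (g l)) (u (g (j.succAbove l))) * -⟪u (g (j.succAbove l)), x⟫ :=
        mul_le_mul_of_nonneg_left c3 c4
      have c9 : δ l * Real.log (1 - ⟪u (g (j.succAbove l)), x⟫) ≤ δ l * Real.log (1 + ‖x‖) :=
        mul_le_mul_of_nonneg_left c1 c6
      rw [c5]
      linarith
    have h5 : ∑ l : Fin n, 2 * (lev (fun l => u (g l)) (u (g (j.succAbove l))) *
          ⟪u (g (j.succAbove l)), x⟫ - δ l * Real.log (1 + ‖x‖)) =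
        2 * (∑ l : Fin n, lev (fun l => u (g l)) (u (g (j.succAbove l))) *
          ⟪u (g (j.succAbove l)), x⟫ - lev (fun l => u (g l)) (u (g j)) *
            Real.log (1 + ‖x‖)) := by
      rw [← Finset.mul_sum, Finset.sum_sub_distrib, ← Finset.sum_mul, hδs]
    have h6 : lev (fun l => u (g l)) (u (g j)) * ⟪u (g j), x⟫ ≤ 1 := by
      have := mul_le_mul_of_nonneg_left (hx (g j)).le hl0
      linarith
    have h7 : lev (fun l => u (g l)) (u (g j)) * Real.log (1 + ‖x‖) ≤ Real.log (1 + ‖x‖) :=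
      mul_le_of_le_one_left hb2 hl.le
    linarith
  have h8 := n5_c u c hc hu hiso x hx
  have h9 : ∑ i, c i * ⟪u i, x⟫ =
      -∑ l, lev (fun l => u (g l)) (u (g l)) * ⟪u (g l), x⟫ := by
    have := congrArg (fun v => ⟪v, x⟫) hcen
    simp only [sum_inner, real_inner_smul_left, inner_neg_left] at this
    exact this
  have h10 := Pool.Agent.Helper50.QH.final_num hr0
  have h11 := n5_num
  linarith

end Pool.Agent.Helper57.NS
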