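import Mathlib
import Pool.Agent.Helper47.QH.Polytope
import Pool.Agent.Helper67.QH.DetLe
import Pool.Agent.Helper57.NS.Defs
import Pool.Agent.Helper57.NS.St.N1
import Pool.Agent.Helper57.NS.St.N3
import Pool.Agent.Helper57.NS.St.N4
import Pool.Agent.Helper57.NS.St.N5

set_option autoImplicit false

/-!
Project NS, piece N6: the exchange estimates in the original coordinates.

Hints. Exactly the pattern of `Pool.Agent.Helper47.QH.main_est`
(`Pool/Agent/Helper47/QH/Polytope.lean`): `u i = A (sv a b o i)`, `B = A⁻¹` (`exists_inv`),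
`y = B† (x - o)`, so `1 - ⟪u i, y⟫ = s' i / s i` (`s`, `s'` the slacks at `o`, `x`), `Q = A' B`,
`Helper67.QH.det_le` gives `log det Q ≤ ∑ c i log ‖Q (u i)‖ ≤ ∑ c i log (1 - ⟪u i, y⟫)`.
`sv a b x i = (s i / s' i) • sv a b o i`, so by `frm_smul`, `det_frm_comp` (N3)
`log det (frm (u ∘ g) ((1 - ⟪u, y⟫) ^ 2)⁻¹) = 2 log det A + log det (fr (sv a b x ∘ g))`.
Leverages are invariant (`lev_comp`), and `hcen` is N5's hypothesis for `u`.
-/

namespace Pool.Agent.Helper57.NS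

open scoped BigOperators RealInnerProductSpace

private theorem n6_spn {d : ℕ} {ι I : Type} (a : I → Eu d) (b : I → ℝ) (h : ι → I) (x : Eu d)
    (hs : ∀ i, ⟪a i, x⟫ < b i) (hh : Spn fun l => a (h l)) : Spn fun l => sv a b x (h l) := by
  intro y hy
  refine hh y fun l => ?_
  have h1 : ⟪(b (h l) - ⟪a (h l), x⟫)⁻¹ • a (h l), y⟫ = (0 : ℝ) := hy l
  rw [real_inner_smul_left] at h1
  have h2 : (b (h l) - ⟪a (h l), x⟫)⁻¹ ≠ 0 := inv_ne_zero (by linarith [hs (h l)])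
  exact (mul_eq_zero.1 h1).resolve_left h2

private theorem n6_spn' {d : ℕ} {ι I : Type} (a : I → Eu d) (b : I → ℝ) (h : ι → I) (x : Eu d)
    (hh : Spn fun l => sv a b x (h l)) : Spn fun l => a (h l) := by
  intro y hy
  refine hh y fun l => ?_
  show ⟪(b (h l) - ⟪a (h l), x⟫)⁻¹ • a (h l), y⟫ = (0 : ℝ)
  rw [real_inner_smul_left, hy l, mul_zero]

private theorem n6_core {d : ℕ} {I : Type} [Fintype I] (a : I → Eu d) (b : I → ℝ)
    (o : Eu d) (A : Eu d →L[ℝ] Eu d) (c : I → ℝ) (hA : 0 < A.det)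
    (hf : ∀ i, ⟪a i, o⟫ + ‖A (a i)‖ ≤ b i) (hs : ∀ i, ⟪a i, o⟫ < b i) (hc : ∀ i, 0 ≤ c i)
    (hact : ∀ i, c i ≠ 0 → ‖A (a i)‖ = b i - ⟪a i, o⟫)
    (hiso : ∀ w : Eu d, ∑ i, c i * ⟪A (sv a b o i), w⟫ ^ 2 = ‖w‖ ^ 2)
    (x : Eu d) (A' : Eu d →L[ℝ] Eu d) (hA' : 0 < A'.det)
    (hf' : ∀ i, ⟪a i, x⟫ + ‖A' (a i)‖ ≤ b i) (hs' : ∀ i, ⟪a i, x⟫ < b i) :
    ∃ y : Eu d, (∀ i, 1 - ⟪A (sv a b o i), y⟫ = (b i - ⟪a i, x⟫) / (b i - ⟪a i, o⟫)) ∧
      (∀ i, ‖A (sv a b o i)‖ ≤ 1) ∧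
      Real.log A'.det - Real.log A.det ≤
        ∑ i, c i * Real.log (1 - ⟪A (sv a b o i), y⟫) := by
  obtain ⟨s, hsdef⟩ : ∃ s : I → ℝ, ∀ i, s i = b i - ⟪a i, o⟫ := ⟨_, fun i => rfl⟩
  obtain ⟨s', hs'def⟩ : ∃ s' : I → ℝ, ∀ i, s' i = b i - ⟪a i, x⟫ := ⟨_, fun i => rfl⟩
  have hspos : ∀ i, 0 < s i := fun i => by rw [hsdef]; linarith [hs i]
  have hs'pos : ∀ i, 0 < s' i := fun i => by rw [hs'def]; linarith [hs' i]
  obtain ⟨B, hBA, hAB, hdet⟩ := Pool.Agent.Helper47.QH.exists_inv A hA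
  obtain ⟨C, hCA, -, -⟩ := Pool.Agent.Helper47.QH.exists_inv A' hA'
  obtain ⟨u, hu'⟩ : ∃ u : I → Eu d, ∀ i, u i = A (sv a b o i) := ⟨_, fun i => rfl⟩
  have hu : ∀ i, u i = (s i)⁻¹ • A (a i) := by
    intro i
    rw [hu', sv, map_smul, hsdef]
  obtain ⟨y, hy⟩ : ∃ y : Eu d, y = ContinuousLinearMap.adjoint B (x - o) := ⟨_, rfl⟩
  have huy : ∀ i, 1 - ⟪u i, y⟫ = s' i / s i := by
    intro i
    rw [hu, hy, real_inner_smul_left, ContinuousLinearMap.adjoint_inner_right, hBA,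
      inner_sub_right, eq_div_iff (hspos i).ne', sub_mul, one_mul]
    have h1 : (s i)⁻¹ * (⟪a i, x⟫ - ⟪a i, o⟫) * s i = ⟪a i, x⟫ - ⟪a i, o⟫ := by
      have := (hspos i).ne'
      field_simp
    rw [h1, hsdef, hs'def]
    ring
  have hu1 : ∀ i, ‖u i‖ ≤ 1 := by
    intro i
    rw [hu, norm_smul, norm_inv, Real.norm_of_nonneg (hspos i).le, inv_mul_le_iff₀ (hspos i),
      mul_one, hsdef]
    linarith [hf i]
  have hu2 : ∀ i, c i ≠ 0 → ‖u i‖ = 1 := by
    intro i hi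
    rw [hu, norm_smul, norm_inv, Real.norm_of_nonneg (hspos i).le, hact i hi, ← hsdef,
      inv_mul_cancel₀ (hspos i).ne']
  have hiso' : ∀ w : Eu d, ∑ i, c i * ⟪u i, w⟫ ^ 2 = ‖w‖ ^ 2 := by
    intro w
    rw [← hiso w]
    exact Finset.sum_congr rfl fun i _ => by rw [hu']
  obtain ⟨Q, hQ⟩ : ∃ Q, Q = A'.comp B := ⟨_, rfl⟩
  have hBpos : 0 < B.det := by
    by_contra h
    push Not at h
    nlinarith
  have hQdet : Q.det = A'.det * B.det := by
    rw [hQ]
    exact LinearMap.det_comp (A' : Eu d →ₗ[ℝ] Eu d) (B : Eu d →ₗ[ℝ] Eu d)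
  have hQpos : 0 < Q.det := by rw [hQdet]; positivity
  have hQu : ∀ i, Q (u i) = (s i)⁻¹ • A' (a i) := by
    intro i
    rw [hQ, hu, ContinuousLinearMap.comp_apply, map_smul, map_smul, hBA]
  have hdetle := Pool.Agent.Helper67.QH.det_le u c hc hu2 hiso' Q hQpos
  have h3 : ∑ i, c i * Real.log ‖Q (u i)‖ ≤ ∑ i, c i * Real.log (1 - ⟪u i, y⟫) := by
    refine Finset.sum_le_sum fun i _ => ?_
    by_cases hi : c i = 0
    · rw [hi, zero_mul, zero_mul]
    · refine mul_le_mul_of_nonneg_left ?_ (hc i)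
      have h4 : a i ≠ 0 := by
        intro h0
        have h5 := hact i hi
        rw [h0, map_zero, norm_zero, ← h0, ← hsdef] at h5
        linarith [hspos i]
      have h6 : A' (a i) ≠ 0 := by
        intro h0
        apply h4
        rw [← hCA (a i), h0, map_zero]
      have h7 : ‖Q (u i)‖ = ‖A' (a i)‖ / s i := by
        rw [hQu, norm_smul, norm_inv, Real.norm_of_nonneg (hspos i).le, div_eq_inv_mul]
      rw [h7, huy]
      refine Real.log_le_log (div_pos (norm_pos_iff.2 h6) (hspos i)) ?_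
      refine (div_le_div_iff_of_pos_right (hspos i)).2 ?_
      rw [hs'def]
      linarith [hf' i]
  have h4 : Real.log Q.det = Real.log A'.det - Real.log A.det := by
    have h5 : Real.log A.det + Real.log B.det = 0 := by
      rw [← Real.log_mul hA.ne' hBpos.ne', hdet, Real.log_one]
    rw [hQdet, Real.log_mul hA'.ne' hBpos.ne']
    linarith
  refine ⟨y, fun i => ?_, fun i => ?_, ?_⟩
  · rw [← hu', huy, hsdef, hs'def]
  · rw [← hu']
    exact hu1 i
  · simp only [← hu']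
    linarith

private theorem n6_det {d : ℕ} {ι I : Type} [Fintype ι] (a : I → Eu d) (b : I → ℝ) (h : ι → I)
    (o x y : Eu d) (A : Eu d →L[ℝ] Eu d) (hs : ∀ i, ⟪a i, o⟫ < b i) (hs' : ∀ i, ⟪a i, x⟫ < b i)
    (hy : ∀ i, 1 - ⟪A (sv a b o i), y⟫ = (b i - ⟪a i, x⟫) / (b i - ⟪a i, o⟫)) :
    LinearMap.det (frm (fun l => A (sv a b o (h l)))
      fun l => ((1 - ⟪A (sv a b o (h l)), y⟫) ^ 2)⁻¹) =
      A.det ^ 2 * LinearMap.det (fr fun l => sv a b x (h l)) := by
  rw [det_frm_comp A (fun l => sv a b o (h l))]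
  congr 2
  have h1 : (fun l => sv a b x (h l)) = fun l =>
      ((b (h l) - ⟪a (h l), o⟫) / (b (h l) - ⟪a (h l), x⟫)) • sv a b o (h l) := by
    funext l
    rw [sv, sv, smul_smul]
    congr 1
    have h2 : b (h l) - ⟪a (h l), o⟫ ≠ 0 := by linarith [hs (h l)]
    rw [div_mul_eq_mul_div, mul_inv_cancel₀ h2, one_div]
  rw [h1, fr, frm_smul (fun l => sv a b o (h l))]
  congr 1
  funext l
  rw [hy, one_mul, ← inv_pow, inv_div]

private theorem n6_det' {d : ℕ} {ι I : Type} [Fintype ι] (a : I → Eu d) (b : I → ℝ) (h : ι → I)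
    (o : Eu d) (A : Eu d →L[ℝ] Eu d) :
    LinearMap.det (fr fun l => A (sv a b o (h l))) =
      A.det ^ 2 * LinearMap.det (fr fun l => sv a b o (h l)) :=
  det_frm_comp A (fun l => sv a b o (h l)) _

theorem main_add {d n : ℕ} {I : Type} [Fintype I] (a : I → Eu d) (b : I → ℝ)
    (g : Fin (n + 1) → I) (j : Fin (n + 1)) (hf : Spn fun l : Fin n => a (g (j.succAbove l)))
    (o : Eu d) (A : Eu d →L[ℝ] Eu d) (c : I → ℝ)
    (hopt : Opt a b (fun l : Fin n => g (j.succAbove l)) o A c)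
    (x : Eu d) (A' : Eu d →L[ℝ] Eu d) (hA' : 0 < A'.det)
    (hf' : ∀ i, ⟪a i, x⟫ + ‖A' (a i)‖ ≤ b i) (hs' : ∀ i, ⟪a i, x⟫ < b i) :
    val a b (fun l : Fin n => g (j.succAbove l)) o A +
        Real.log (1 + lev (fun l : Fin n => sv a b o (g (j.succAbove l))) (sv a b o (g j))) -
        Real.log 22 ≤ val a b g x A' := by
  have hA := hopt.det_pos
  obtain ⟨y, hy, hu1, hlog⟩ := n6_core a b o A c hA hopt.feas hopt.slack hopt.c_nonneg hopt.act
    hopt.iso x A' hA' hf' hs'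
  have hy1 : ∀ i, ⟪A (sv a b o i), y⟫ < 1 := by
    intro i
    have h1 := hy i
    have h2 : 0 < (b i - ⟪a i, x⟫) / (b i - ⟪a i, o⟫) :=
      div_pos (by linarith [hs' i]) (by linarith [hopt.slack i])
    linarith
  have hfo := n6_spn a b (fun l : Fin n => g (j.succAbove l)) o hopt.slack hf
  have hga : Spn fun l => a (g l) := fun z hz => hf z fun l => hz _
  have hgx := n6_spn a b g x hs' hga
  have hlev : ∀ i, lev (fun l : Fin n => A (sv a b o (g (j.succAbove l)))) (A (sv a b o i)) =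
      lev (fun l : Fin n => sv a b o (g (j.succAbove l))) (sv a b o i) := fun i =>
    lev_comp A hA.ne' _ hfo _
  have key := exch_add (fun i => A (sv a b o i)) c hopt.c_nonneg hu1 hopt.iso y hy1 g j
    (spn_comp A hA.ne' _ hfo) (by
      rw [hopt.cen]
      congr 1
      exact Finset.sum_congr rfl fun l _ => by rw [hlev])
  have e1 := n6_det a b g o x y A hopt.slack hs' hy
  have e2 := n6_det' a b (fun l : Fin n => g (j.succAbove l)) o A
  have p1 := det_fr_pos _ hfo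
  have p2 := det_fr_pos _ hgx
  simp only [hlev] at key
  rw [e1, e2, Real.log_mul (pow_ne_zero 2 hA.ne') p1.ne',
    Real.log_mul (pow_ne_zero 2 hA.ne') p2.ne'] at key
  rw [val, val]
  linarith

theorem main_remove {d n : ℕ} {I : Type} [Fintype I] (a : I → Eu d) (b : I → ℝ)
    (g : Fin (n + 1) → I) (j : Fin (n + 1)) (hg : Spn fun l => a (g l))
    (o : Eu d) (A : Eu d →L[ℝ] Eu d) (c : I → ℝ) (hopt : Opt a b g o A c)
    (hl : lev (fun l => sv a b o (g l)) (sv a b o (g j)) < 1)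
    (x : Eu d) (A' : Eu d →L[ℝ] Eu d) (hA' : 0 < A'.det)
    (hf' : ∀ i, ⟪a i, x⟫ + ‖A' (a i)‖ ≤ b i) (hs' : ∀ i, ⟪a i, x⟫ < b i) :
    val a b g o A + Real.log (1 - lev (fun l => sv a b o (g l)) (sv a b o (g j))) -
        Real.log 22 ≤ val a b (fun l : Fin n => g (j.succAbove l)) x A' := by
  have hA := hopt.det_pos
  obtain ⟨y, hy, hu1, hlog⟩ := n6_core a b o A c hA hopt.feas hopt.slack hopt.c_nonneg hopt.act
    hopt.iso x A' hA' hf' hs'
  have hy1 : ∀ i, ⟪A (sv a b o i), y⟫ < 1 := by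
    intro i
    have h1 := hy i
    have h2 : 0 < (b i - ⟪a i, x⟫) / (b i - ⟪a i, o⟫) :=
      div_pos (by linarith [hs' i]) (by linarith [hopt.slack i])
    linarith
  have hgo := n6_spn a b g o hopt.slack hg
  have hfo : Spn fun l : Fin n => sv a b o (g (j.succAbove l)) :=
    spn_remove (fun l => sv a b o (g l)) j hgo hl
  have hfa : Spn fun l : Fin n => a (g (j.succAbove l)) :=
    n6_spn' a b (fun l : Fin n => g (j.succAbove l)) o hfo
  have hfx := n6_spn a b (fun l : Fin n => g (j.succAbove l)) x hs' hfa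
  have hlev : ∀ i, lev (fun l => A (sv a b o (g l))) (A (sv a b o i)) =
      lev (fun l => sv a b o (g l)) (sv a b o i) := fun i =>
    lev_comp A hA.ne' _ hgo _
  have key := exch_remove (fun i => A (sv a b o i)) c hopt.c_nonneg hu1 hopt.iso y hy1 g j
    (spn_comp A hA.ne' _ hgo) (by rw [hlev]; exact hl) (by
      rw [hopt.cen]
      congr 1
      exact Finset.sum_congr rfl fun l _ => by rw [hlev])
  have e1 := n6_det a b (fun l : Fin n => g (j.succAbove l)) o x y A hopt.slack hs' hy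
  have e2 := n6_det' a b g o A
  have p1 := det_fr_pos _ hgo
  have p2 := det_fr_pos _ hfx
  simp only [hlev] at key
  rw [e1, e2, Real.log_mul (pow_ne_zero 2 hA.ne') p1.ne',
    Real.log_mul (pow_ne_zero 2 hA.ne') p2.ne'] at key
  rw [val, val]
  linarith

end Pool.Agent.Helper57.NS
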