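import Mathlib
import Pool.Agent.Helper57.NS.Defs
import Pool.Agent.Helper57.NS.St.N1
import Pool.Agent.Helper57.NS.St.N3
import Pool.Agent.Helper57.NS.St.N2

set_option autoImplicit false

/-!
Project NS, piece N7: the functional `val a b f` has a minimiser.
-/

namespace Pool.Agent.Helper57.NS

open scoped BigOperators RealInnerProductSpace Topology
open Filter

/-- the feasible set is compact -/
private theorem N7_compact {d : ℕ} {I : Type} [Fintype I] (a : I → Eu d) (b : I → ℝ) (R : ℝ)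
    (hbdd : ∀ x : Eu d, (∀ i, ⟪a i, x⟫ ≤ b i) → ‖x‖ ≤ R) (hR : 0 ≤ R) :
    IsCompact {p : Eu d × (Eu d →L[ℝ] Eu d) | ∀ i, ⟪a i, p.1⟫ + ‖p.2 (a i)‖ ≤ b i} ∧
      ∀ p : Eu d × (Eu d →L[ℝ] Eu d), (∀ i, ⟪a i, p.1⟫ + ‖p.2 (a i)‖ ≤ b i) → ‖p.1‖ ≤ R := by
  obtain ⟨C, hC⟩ : ∃ C : Set (Eu d × (Eu d →L[ℝ] Eu d)),
    C = {p | ∀ i, ⟪a i, p.1⟫ + ‖p.2 (a i)‖ ≤ b i} := ⟨_, rfl⟩
  rw [← hC]
  have hCm : ∀ p, p ∈ C ↔ ∀ i, ⟪a i, p.1⟫ + ‖p.2 (a i)‖ ≤ b i := fun p => by rw [hC]; rfl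
  have hclosed : IsClosed C := by
    rw [hC, Set.ofPred_forall]
    refine isClosed_iInter fun i => isClosed_le ?_ continuous_const
    have h1 : Continuous fun p : Eu d × (Eu d →L[ℝ] Eu d) => p.2 (a i) :=
      continuous_snd.clm_apply continuous_const
    fun_prop
  have hmem : ∀ p ∈ C, ∀ ξ : Eu d, ‖ξ‖ ≤ 1 →
      ‖p.1 + ContinuousLinearMap.adjoint p.2 ξ‖ ≤ R := by
    intro p hp ξ hξ
    apply hbdd
    intro i
    have h1 := (hCm p).1 hp i
    rw [inner_add_right, ContinuousLinearMap.adjoint_inner_right]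
    have h2 : ⟪p.2 (a i), ξ⟫ ≤ ‖p.2 (a i)‖ * ‖ξ‖ := real_inner_le_norm _ _
    have h3 : ‖p.2 (a i)‖ * ‖ξ‖ ≤ ‖p.2 (a i)‖ := by
      nlinarith [norm_nonneg (p.2 (a i))]
    linarith
  have hp1 : ∀ p ∈ C, ‖p.1‖ ≤ R := by
    intro p hp
    have := hmem p hp 0 (by simp)
    simpa using this
  have hb : Bornology.IsBounded C := by
    rw [isBounded_iff_forall_norm_le]
    refine ⟨2 * R, fun p hp => ?_⟩
    have h1 : ‖p.1‖ ≤ R := hp1 p hp
    have h2 : ‖p.2‖ ≤ 2 * R := by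
      rw [← LinearIsometryEquiv.norm_map ContinuousLinearMap.adjoint p.2]
      refine ContinuousLinearMap.opNorm_le_of_unit_norm (by linarith) fun ξ hξ => ?_
      have h3 := hmem p hp ξ hξ.le
      have h4 : ContinuousLinearMap.adjoint p.2 ξ =
          (p.1 + ContinuousLinearMap.adjoint p.2 ξ) - p.1 := by abel
      rw [h4]
      refine (norm_sub_le _ _).trans ?_
      linarith
    rw [Prod.norm_def]
    exact max_le (by linarith) h2
  exact ⟨Metric.isCompact_of_isClosed_isBounded hclosed hb, fun p hp => hp1 p ((hCm p).2 hp)⟩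

private theorem N7_inj {d : ℕ} (B : Eu d →L[ℝ] Eu d) (hB : 0 < B.det) :
    Function.Injective B := by
  have h : IsUnit (B : Eu d →ₗ[ℝ] Eu d) := by
    rw [LinearMap.isUnit_iff_isUnit_det]
    exact isUnit_iff_ne_zero.2 hB.ne'
  exact ((Module.End.isUnit_iff _).1 h).1

/-- slacks are positive at feasible pairs with positive determinant -/
private theorem N7_slack {d : ℕ} {I : Type} (a : I → Eu d) (b : I → ℝ)
    (x₀ : Eu d) (hint : ∀ i, ⟪a i, x₀⟫ < b i) (o : Eu d) (A : Eu d →L[ℝ] Eu d)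
    (hA : 0 < A.det) (hf : ∀ i, ⟪a i, o⟫ + ‖A (a i)‖ ≤ b i) (i : I) : 0 < b i - ⟪a i, o⟫ := by
  by_cases h0 : a i = 0
  · have h2 := hint i
    rw [h0, inner_zero_left] at h2 ⊢
    linarith
  · have h1 : 0 < ‖A (a i)‖ := by
      rw [norm_pos_iff]
      intro h1
      exact h0 (N7_inj A hA (by rw [h1, map_zero]))
    have := hf i
    linarith

/-- the determinant of the weighted frame operator is continuous in the weights -/
private theorem N7_cont {d n : ℕ} (v : Fin n → Eu d) :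
    Continuous fun w : Fin n → ℝ => LinearMap.det (frm v w) := by
  have h : ∀ w : Fin n → ℝ, LinearMap.det (frm v w) =
      (∑ l, w l • LinearMap.toMatrix (EuclideanSpace.basisFun (Fin d) ℝ).toBasis
        (EuclideanSpace.basisFun (Fin d) ℝ).toBasis
        ((innerₛₗ ℝ (v l)).smulRight (v l) : Eu d →ₗ[ℝ] Eu d)).det := by
    intro w
    rw [← LinearMap.det_toMatrix (EuclideanSpace.basisFun (Fin d) ℝ).toBasis, frm, map_sum]
    simp only [map_smul]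
  rw [show (fun w : Fin n → ℝ => LinearMap.det (frm v w)) = fun w => _ from funext h]
  refine Continuous.matrix_det ?_
  refine continuous_finsetSum _ fun l _ => ?_
  exact (continuous_apply l).smul continuous_const

theorem exists_min {d n : ℕ} {I : Type} [Fintype I] (a : I → Eu d) (b : I → ℝ) (R : ℝ)
    (hbdd : ∀ x : Eu d, (∀ i, ⟪a i, x⟫ ≤ b i) → ‖x‖ ≤ R)
    (x₀ : Eu d) (hint : ∀ i, ⟪a i, x₀⟫ < b i) (f : Fin n → I) (hf : Spn fun l => a (f l)) :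
    ∃ (o : Eu d) (A : Eu d →L[ℝ] Eu d), 0 < A.det ∧ (∀ i, ⟪a i, o⟫ + ‖A (a i)‖ ≤ b i) ∧
      (∀ i, ⟪a i, o⟫ < b i) ∧
      ∀ (o' : Eu d) (A' : Eu d →L[ℝ] Eu d), 0 < A'.det →
        (∀ i, ⟪a i, o'⟫ + ‖A' (a i)‖ ≤ b i) → (∀ i, ⟪a i, o'⟫ < b i) →
        val a b f o A ≤ val a b f o' A' := by
  classical
  have hR : 0 ≤ R := (norm_nonneg x₀).trans (hbdd x₀ fun i => (hint i).le)
  obtain ⟨hcomp, hbd⟩ := N7_compact a b R hbdd hR
  -- upper bound for the slacks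
  obtain ⟨σ, hσ⟩ : ∃ σ : ℝ, σ = 1 + ∑ i, (|b i| + ‖a i‖ * R) := ⟨_, rfl⟩
  have hterm : ∀ i, 0 ≤ |b i| + ‖a i‖ * R := fun i => by positivity
  have hσ1 : 1 ≤ σ := by
    rw [hσ]
    have : 0 ≤ ∑ i, (|b i| + ‖a i‖ * R) := Finset.sum_nonneg fun i _ => hterm i
    linarith
  have hσs : ∀ o : Eu d, ‖o‖ ≤ R → ∀ i, b i - ⟪a i, o⟫ ≤ σ := by
    intro o ho i
    have h1 : |b i| + ‖a i‖ * R ≤ ∑ i, (|b i| + ‖a i‖ * R) :=
      Finset.single_le_sum (f := fun i => |b i| + ‖a i‖ * R) (fun i _ => hterm i)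
        (Finset.mem_univ i)
    have h2 := abs_real_inner_le_norm (a i) o
    have h3 := (abs_le.1 h2).1
    have h4 : ‖a i‖ * ‖o‖ ≤ ‖a i‖ * R := mul_le_mul_of_nonneg_left ho (norm_nonneg _)
    have h5 := le_abs_self (b i)
    rw [hσ]
    linarith
  -- the frame determinant in terms of weights
  have hfr : ∀ o : Eu d, LinearMap.det (fr fun l => sv a b o (f l)) =
      LinearMap.det (frm (fun l => a (f l)) fun l => 1 * (b (f l) - ⟪a (f l), o⟫)⁻¹ ^ 2) := by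
    intro o
    have h := frm_smul (fun l => a (f l)) (fun _ => 1) fun l => (b (f l) - ⟪a (f l), o⟫)⁻¹
    rw [← h]
    rfl
  have hwpos : ∀ o : Eu d, (∀ i, 0 < b i - ⟪a i, o⟫) → ∀ l,
      0 < 1 * (b (f l) - ⟪a (f l), o⟫)⁻¹ ^ 2 := by
    intro o ho l
    have := inv_pos.2 (ho (f l))
    positivity
  have hlow : ∀ o : Eu d, ‖o‖ ≤ R → (∀ i, 0 < b i - ⟪a i, o⟫) →
      Real.log (LinearMap.det (fr fun l => a (f l))) - 2 * d * Real.log σ ≤
        Real.log (LinearMap.det (fr fun l => sv a b o (f l))) := by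
    intro o ho hs
    rw [hfr o]
    have h1 := log_det_ge (fun l => a (f l)) hf _ (hwpos o hs)
    have h2 : -(2 * d * Real.log σ) ≤ ∑ l, lev (fun l => a (f l)) (a (f l)) *
        Real.log (1 * (b (f l) - ⟪a (f l), o⟫)⁻¹ ^ 2) := by
      have h3 : -(2 * d * Real.log σ) =
          ∑ l, lev (fun l => a (f l)) (a (f l)) * (-(2 * Real.log σ)) := by
        rw [← Finset.sum_mul, sum_lev (fun l => a (f l)) hf]
        ring
      rw [h3]
      refine Finset.sum_le_sum fun l _ => ?_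
      refine mul_le_mul_of_nonneg_left ?_ (lev_nonneg _ hf _)
      have h4 := hs (f l)
      rw [one_mul, Real.log_pow, Real.log_inv]
      have h5 : Real.log (b (f l) - ⟪a (f l), o⟫) ≤ Real.log σ :=
        Real.log_le_log h4 (hσs o ho (f l))
      push_cast
      linarith
    linarith
  -- starting point
  obtain ⟨ε, hε, hεi⟩ : ∃ ε : ℝ, 0 < ε ∧ ∀ i, ε * ‖a i‖ ≤ b i - ⟪a i, x₀⟫ := by
    have h1 : ∀ᶠ ε in 𝓝[>] (0 : ℝ), ∀ i, ε * ‖a i‖ ≤ b i - ⟪a i, x₀⟫ := by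
      rw [Filter.eventually_all]
      intro i
      have h2 : Tendsto (fun ε : ℝ => ε * ‖a i‖) (𝓝 0) (𝓝 (0 * ‖a i‖)) :=
        (continuous_id.mul continuous_const).tendsto 0
      rw [zero_mul] at h2
      have h3 := h2.eventually (gt_mem_nhds (sub_pos.2 (hint i)))
      filter_upwards [nhdsWithin_le_nhds h3] with ε h using le_of_lt h
    obtain ⟨ε, h2, h3⟩ := (h1.and self_mem_nhdsWithin).exists
    exact ⟨ε, h3, h2⟩
  obtain ⟨A₀, hA₀⟩ : ∃ A₀ : Eu d →L[ℝ] Eu d, A₀ = ε • ContinuousLinearMap.id ℝ (Eu d) :=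
    ⟨_, rfl⟩
  have hA₀f : ∀ i, ⟪a i, x₀⟫ + ‖A₀ (a i)‖ ≤ b i := by
    intro i
    have : ‖ε • a i‖ = ε * ‖a i‖ := by
      rw [norm_smul, Real.norm_of_nonneg hε.le]
    have h := hεi i
    rw [hA₀]
    simp only [smul_apply, ContinuousLinearMap.id_apply]
    rw [this]
    linarith
  have hA₀d : 0 < A₀.det := by
    have h2 : A₀.det = ε ^ d := by
      rw [hA₀, ContinuousLinearMap.det]
      have : ((ε • ContinuousLinearMap.id ℝ (Eu d) : Eu d →L[ℝ] Eu d) : Eu d →ₗ[ℝ] Eu d) =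
          ε • LinearMap.id := rfl
      rw [this, LinearMap.det_smul, LinearMap.det_id, mul_one, finrank_euclideanSpace_fin]
    rw [h2]
    positivity
  obtain ⟨V₀, hV₀⟩ : ∃ V₀ : ℝ, V₀ = val a b f x₀ A₀ := ⟨_, rfl⟩
  obtain ⟨L, hL⟩ : ∃ L : ℝ, L = (Real.log (LinearMap.det (fr fun l => a (f l))) -
    2 * d * Real.log σ - V₀) / 2 := ⟨_, rfl⟩
  have hδ : ∀ (o : Eu d) (A : Eu d →L[ℝ] Eu d), 0 < A.det →
      (∀ i, ⟪a i, o⟫ + ‖A (a i)‖ ≤ b i) → val a b f o A ≤ V₀ → Real.exp L ≤ A.det := by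
    intro o A hAd hAf hval
    have hs := N7_slack a b x₀ hint o A hAd hAf
    have h1 := hlow o (hbd (o, A) hAf) hs
    unfold val at hval
    have h2 : L ≤ Real.log A.det := by rw [hL]; linarith
    have h3 := Real.exp_le_exp.2 h2
    rwa [Real.exp_log hAd] at h3
  obtain ⟨C', hC'⟩ : ∃ C' : Set (Eu d × (Eu d →L[ℝ] Eu d)),
    C' = {p | ∀ i, ⟪a i, p.1⟫ + ‖p.2 (a i)‖ ≤ b i} ∩ {p | Real.exp L ≤ p.2.det} := ⟨_, rfl⟩
  have hC'c : IsCompact C' := by
    rw [hC']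
    refine hcomp.inter_right (isClosed_le continuous_const ?_)
    exact ContinuousLinearMap.continuous_det.comp continuous_snd
  have hC'm : ∀ p : Eu d × (Eu d →L[ℝ] Eu d), p ∈ C' ↔
      (∀ i, ⟪a i, p.1⟫ + ‖p.2 (a i)‖ ≤ b i) ∧ Real.exp L ≤ p.2.det := fun p => by
    rw [hC']; rfl
  have hC's : ∀ p ∈ C', ∀ i, 0 < b i - ⟪a i, p.1⟫ := by
    intro p hp
    obtain ⟨h1, h2⟩ := (hC'm p).1 hp
    exact N7_slack a b x₀ hint p.1 p.2 (lt_of_lt_of_le (Real.exp_pos L) h2) h1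
  have hst : (x₀, A₀) ∈ C' :=
    (hC'm _).2 ⟨hA₀f, hδ x₀ A₀ hA₀d hA₀f (le_of_eq hV₀.symm)⟩
  have hcont : ContinuousOn (fun p : Eu d × (Eu d →L[ℝ] Eu d) => val a b f p.1 p.2) C' := by
    obtain ⟨g, hg, hgc⟩ : ∃ g : (Fin n → ℝ) → ℝ,
        (∀ w, g w = LinearMap.det (frm (fun l => a (f l)) w)) ∧ Continuous g :=
      ⟨_, fun w => rfl, N7_cont fun l => a (f l)⟩
    obtain ⟨W, hW⟩ : ∃ W : Eu d × (Eu d →L[ℝ] Eu d) → Fin n → ℝ,
        ∀ p, W p = fun l => 1 * (b (f l) - ⟪a (f l), p.1⟫)⁻¹ ^ 2 := ⟨_, fun p => rfl⟩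
    have c1 : ContinuousOn W C' := by
      rw [continuousOn_pi]
      intro l
      have e1 : (fun p => W p l) = fun p : Eu d × (Eu d →L[ℝ] Eu d) =>
          1 * (b (f l) - ⟪a (f l), p.1⟫)⁻¹ ^ 2 := by
        funext p; rw [hW p]
      rw [e1]
      refine ContinuousOn.mul continuousOn_const (ContinuousOn.pow (ContinuousOn.inv₀ ?_ ?_) 2)
      · exact Continuous.continuousOn (by fun_prop)
      · intro p hp
        exact (hC's p hp (f l)).ne'
    have c2 : ContinuousOn (g ∘ W) C' := hgc.comp_continuousOn c1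
    have c3 : ContinuousOn (fun p => Real.log ((g ∘ W) p)) C' := by
      refine ContinuousOn.log c2 ?_
      intro p hp
      rw [Function.comp_apply, hg, hW]
      exact (det_frm_pos _ hf _ (hwpos p.1 (hC's p hp))).ne'
    have c4 : ContinuousOn (fun p : Eu d × (Eu d →L[ℝ] Eu d) => Real.log p.2.det) C' := by
      refine ContinuousOn.log ?_ ?_
      · exact (ContinuousLinearMap.continuous_det.comp continuous_snd).continuousOn
      · intro p hp
        exact (lt_of_lt_of_le (Real.exp_pos L) ((hC'm p).1 hp).2).ne'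
    refine (c3.sub (c4.const_smul (2 : ℝ))).congr ?_
    intro p _
    simp only [Pi.smul_apply, Pi.sub_apply, Function.comp_apply, smul_eq_mul]
    rw [hg, hW, ← hfr p.1]
    rfl
  obtain ⟨p, hp, hmin'⟩ := hC'c.exists_isMinOn ⟨_, hst⟩ hcont
  have hmin : ∀ q ∈ C', val a b f p.1 p.2 ≤ val a b f q.1 q.2 := isMinOn_iff.1 hmin'
  obtain ⟨hp1, hp2⟩ := (hC'm p).1 hp
  refine ⟨p.1, p.2, lt_of_lt_of_le (Real.exp_pos L) hp2, hp1, fun i => sub_pos.1 (hC's p hp i), ?_⟩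
  intro o' A' hd' hf' _
  have hV : val a b f p.1 p.2 ≤ V₀ := by
    rw [hV₀]; exact hmin (x₀, A₀) hst
  rcases le_or_gt (val a b f o' A') V₀ with h | h
  · exact hmin (o', A') ((hC'm (o', A')).2 ⟨hf', hδ o' A' hd' hf' h⟩)
  · exact hV.trans h.le

end Pool.Agent.Helper57.NS
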