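import Mathlib
import Pool.Agent.Helper88.QH.Extremal
import Pool.Agent.Helper57.NS.Defs
import Pool.Agent.Helper57.NS.St.N1
import Pool.Agent.Helper57.NS.St.N2
import Pool.Agent.Helper57.NS.St.N3

set_option autoImplicit false

/-!
Project NS, piece N8: the multipliers at a minimiser (first order conditions).

Hints. Copy `no_improve` and the Hahn-Banach part of `extremal` from
`Pool/Agent/Helper88/QH/Extremal.lean`; write `u i = A (sv a b o i)`, `t l = ⟪u (f l), h⟫`,
`λ l = lev (sv a b o ∘ f) (sv a b o (f l))`.  The point `P` becomes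
`(-((1/d) • ∑ l, λ l • u (f l)), (1/d) δ_jk)`.  In `no_improve` the hypothesis is
`0 < M.trace - ∑ l, λ l * t l` and the conclusion comes from comparing `val` at
`(o + ε A† h, (1 + ε M) A)`: the slack of `l` is multiplied by `1 - ε t l`, so by `frm_smul` (N3)
and `log_det_le` (N2) `val_new - val_old ≤ ∑ λ l ((1 - ε t l)⁻² - 1) - 2 log det (1 + ε M)`,
and the right side is negative for small `ε > 0` (derivative at `0` is
`2 ∑ λ l t l - 2 tr M < 0`; `Matrix.det_one_add_smul`).  Feasibility of the perturbed pair is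
exactly as in Helper88 (`norm_add_le_quad`).
-/

namespace Pool.Agent.Helper57.NS

open scoped BigOperators RealInnerProductSpace

open Filter Topology in
/-- the expansion of the functional at the perturbation parameter `0` -/
private theorem n8_neg {d n : ℕ} (M : Matrix (Fin d) (Fin d) ℝ) (t la : Fin n → ℝ)
    (hM : 0 < M.trace - ∑ l, la l * t l) :
    ∀ᶠ ε in 𝓝[>] (0 : ℝ), 0 < (1 + ε • M).det ∧ (∀ l, 0 < 1 - ε * t l) ∧
      ∑ l, la l * (((1 - ε * t l)⁻¹) ^ 2 - 1) - 2 * Real.log (1 + ε • M).det < 0 := by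
  obtain ⟨Q, hQ⟩ : ∃ Q : Polynomial ℝ, ∀ ε : ℝ, (1 + ε • M).det = 1 + M.trace * ε + Q.eval ε * ε ^ 2 :=
    ⟨_, fun ε => Matrix.det_one_add_smul ε M⟩
  have hD : HasDerivAt (fun ε : ℝ => (1 + ε • M).det) M.trace 0 := by
    have h1 : (fun ε : ℝ => (1 + ε • M).det) = fun ε => 1 + M.trace * ε + Q.eval ε * ε ^ 2 :=
      funext hQ
    rw [h1]
    have h2 : HasDerivAt (fun ε : ℝ => 1 + M.trace * ε) M.trace 0 := by
      simpa using ((hasDerivAt_id (0 : ℝ)).const_mul M.trace).const_add 1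
    have h3 := (Q.hasDerivAt (0 : ℝ)).mul (hasDerivAt_pow 2 (0 : ℝ))
    have h4 := h2.add h3
    refine h4.congr_deriv ?_
    simp
  have h0 : (1 + (0 : ℝ) • M).det = 1 := by simp
  have hlog : HasDerivAt (fun ε : ℝ => Real.log (1 + ε • M).det) M.trace 0 := by
    have h1 := hD.log (by rw [h0]; exact one_ne_zero)
    rw [h0, div_one] at h1
    exact h1
  have hl : ∀ l, HasDerivAt (fun ε : ℝ => la l * (((1 - ε * t l)⁻¹) ^ 2 - 1)) (2 * (la l * t l)) 0 := by
    intro l
    have h1 : HasDerivAt (fun ε : ℝ => 1 - ε * t l) (-t l) 0 := by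
      simpa using ((hasDerivAt_id (0 : ℝ)).mul_const (t l)).const_sub 1
    have h2 := h1.inv (by norm_num)
    have h3 := h2.pow 2
    have h4 := (h3.sub_const 1).const_mul (la l)
    refine h4.congr_deriv ?_
    norm_num
    ring
  have hg : HasDerivAt (fun ε : ℝ => ∑ l, la l * (((1 - ε * t l)⁻¹) ^ 2 - 1)
      - 2 * Real.log (1 + ε • M).det) (∑ l, 2 * (la l * t l) - 2 * M.trace) 0 :=
    (HasDerivAt.fun_sum fun l _ => hl l).sub (hlog.const_mul 2)
  have hneg : ∑ l, 2 * (la l * t l) - 2 * M.trace < 0 := by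
    rw [← Finset.mul_sum]; linarith
  have hslope := hg.tendsto_slope_zero_right
  have hev := hslope.eventually (gt_mem_nhds hneg)
  have hd1 : ∀ᶠ ε in 𝓝 (0 : ℝ), 0 < (1 + ε • M).det := by
    have h1 : Tendsto (fun ε : ℝ => (1 + ε • M).det) (𝓝 0) (𝓝 (1 + (0 : ℝ) • M).det) :=
      hD.continuousAt
    rw [h0] at h1
    exact h1.eventually (lt_mem_nhds one_pos)
  have hd2 : ∀ᶠ ε in 𝓝 (0 : ℝ), ∀ l, 0 < 1 - ε * t l := by
    rw [Filter.eventually_all]
    intro l
    have h1 : Tendsto (fun ε : ℝ => 1 - ε * t l) (𝓝 0) (𝓝 (1 - 0 * t l)) := by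
      have : Continuous fun ε : ℝ => 1 - ε * t l := by fun_prop
      exact this.tendsto 0
    rw [zero_mul, sub_zero] at h1
    exact h1.eventually (lt_mem_nhds one_pos)
  filter_upwards [hev, nhdsWithin_le_nhds hd1, nhdsWithin_le_nhds hd2, self_mem_nhdsWithin]
    with ε h1 h2 h3 h4
  refine ⟨h2, h3, ?_⟩
  have h4' : 0 < ε := h4
  simp only [zero_add, zero_mul, sub_zero, inv_one, one_pow, sub_self, mul_zero,
    Finset.sum_const_zero, zero_smul, add_zero, Matrix.det_one, Real.log_one, smul_eq_mul] at h1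
  by_contra hcon
  push Not at hcon
  have h5 := mul_nonneg (inv_nonneg.2 h4'.le) hcon
  linarith

open Filter Topology in
/-- no improving direction -/
private theorem n8_no_improve {d n : ℕ} {I : Type} [Fintype I] (a : I → Eu d) (b : I → ℝ)
    (f : Fin n → I) (hf : Spn fun l => a (f l)) (o : Eu d) (A : Eu d →L[ℝ] Eu d)
    (hA : 0 < A.det) (hfeas : ∀ i, ⟪a i, o⟫ + ‖A (a i)‖ ≤ b i) (hs : ∀ i, ⟪a i, o⟫ < b i)
    (hmin : ∀ (o' : Eu d) (A' : Eu d →L[ℝ] Eu d), 0 < A'.det →
      (∀ i, ⟪a i, o'⟫ + ‖A' (a i)‖ ≤ b i) → (∀ i, ⟪a i, o'⟫ < b i) →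
      val a b f o A ≤ val a b f o' A')
    (h : Eu d) (M : Matrix (Fin d) (Fin d) ℝ)
    (hM : 0 < M.trace - ∑ l, lev (fun l => sv a b o (f l)) (sv a b o (f l)) *
      ⟪A (sv a b o (f l)), h⟫)
    (hact : ∀ i, ⟪a i, o⟫ + ‖A (a i)‖ = b i → 0 < ‖A (a i)‖ ∧
      ⟪‖A (a i)‖⁻¹ • A (a i), h⟫ +
        ⟪‖A (a i)‖⁻¹ • A (a i), Matrix.toEuclideanLin M (‖A (a i)‖⁻¹ • A (a i))⟫ < 0) :
    False := by
  obtain ⟨H, hH⟩ : ∃ H : Eu d →L[ℝ] Eu d,
    H = LinearMap.toContinuousLinearMap (Matrix.toEuclideanLin M) := ⟨_, rfl⟩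
  have hHv : ∀ v, H v = Matrix.toEuclideanLin M v := by
    intro v; rw [hH]; rfl
  -- determinant of the perturbed operator
  have hdetε : ∀ ε : ℝ, ((ContinuousLinearMap.id ℝ (Eu d) + ε • H).comp A).det =
      (1 + ε • M).det * A.det := by
    intro ε
    have h1 : (((ContinuousLinearMap.id ℝ (Eu d) + ε • H).comp A :
        Eu d →L[ℝ] Eu d) : Eu d →ₗ[ℝ] Eu d) =
        (Matrix.toEuclideanLin (1 + ε • M)) ∘ₗ (A : Eu d →ₗ[ℝ] Eu d) := by
      ext v : 1
      have h2 : Matrix.toEuclideanLin (1 : Matrix (Fin d) (Fin d) ℝ) (A v) = A v := by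
        rw [Matrix.toLpLin_apply, Matrix.one_mulVec]
      simp only [map_add, map_smul, LinearMap.comp_apply, LinearMap.add_apply,
        LinearMap.smul_apply]
      change A v + ε • H (A v) = _
      rw [hHv]
      change _ = Matrix.toEuclideanLin (1 : Matrix (Fin d) (Fin d) ℝ) (A v) + _
      rw [h2]
      rfl
    rw [ContinuousLinearMap.det, h1, LinearMap.det_comp, Matrix.toEuclideanLin_eq_toLin_orthonormal,
      LinearMap.det_toLin]
  have hfe : ∀ᶠ ε in 𝓝[>] (0 : ℝ), ∀ i,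
      ⟪a i, o + ε • ContinuousLinearMap.adjoint A h⟫ +
        ‖((ContinuousLinearMap.id ℝ (Eu d) + ε • H).comp A) (a i)‖ ≤ b i := by
    rw [Filter.eventually_all]
    intro i
    have hval : ∀ ε : ℝ, ((ContinuousLinearMap.id ℝ (Eu d) + ε • H).comp A) (a i)
        = A (a i) + ε • H (A (a i)) := by
      intro ε; rfl
    simp only [hval]
    by_cases hi : ⟪a i, o⟫ + ‖A (a i)‖ = b i
    · obtain ⟨hpos, hneg⟩ := hact i hi
      obtain ⟨l, hl⟩ : ∃ l, l = ‖A (a i)‖ := ⟨_, rfl⟩
      obtain ⟨u, hu⟩ : ∃ u, u = ‖A (a i)‖⁻¹ • A (a i) := ⟨_, rfl⟩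
      rw [← hu, ← hHv] at hneg
      rw [← hl] at hpos hi
      have hAu : A (a i) = l • u := by
        rw [hu, ← hl, smul_smul, mul_inv_cancel₀ hpos.ne', one_smul]
      have hun : ‖u‖ = 1 := by
        rw [hu, norm_smul, norm_inv, norm_norm, ← hl, inv_mul_cancel₀ hpos.ne']
      obtain ⟨κ, hκ⟩ : ∃ κ, κ = -(⟪u, h⟫ + ⟪u, H u⟫) := ⟨_, rfl⟩
      have hκ0 : 0 < κ := by rw [hκ]; linarith
      have h1 : ∀ᶠ ε in 𝓝 (0 : ℝ), ε * (‖H u‖ ^ 2 / 2) < κ := by
        have h2 : Tendsto (fun ε : ℝ => ε * (‖H u‖ ^ 2 / 2)) (𝓝 0) (𝓝 (0 * (‖H u‖ ^ 2 / 2))) :=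
          (continuous_id.mul continuous_const).tendsto 0
        rw [zero_mul] at h2
        exact h2.eventually (gt_mem_nhds hκ0)
      filter_upwards [nhdsWithin_le_nhds h1, self_mem_nhdsWithin] with ε h2 h3
      have h3' : 0 < ε := h3
      have h4 : ‖A (a i) + ε • H (A (a i))‖ ≤ l * (1 + ε * ⟪u, H u⟫ + ε ^ 2 * (‖H u‖ ^ 2 / 2)) := by
        have h5 : A (a i) + ε • H (A (a i)) = l • (u + ε • H u) := by
          rw [hAu, map_smul, smul_add, smul_comm]
        rw [h5, norm_smul, Real.norm_of_nonneg hpos.le]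
        refine mul_le_mul_of_nonneg_left ?_ hpos.le
        refine (Pool.Agent.Helper88.QH.Ext.norm_add_le_quad u (ε • H u) hun).trans (le_of_eq ?_)
        rw [inner_smul_right, norm_smul, Real.norm_of_nonneg h3'.le]
        ring
      have h6 : ⟪a i, o + ε • ContinuousLinearMap.adjoint A h⟫ = ⟪a i, o⟫ + ε * (l * ⟪u, h⟫) := by
        rw [inner_add_right, inner_smul_right, ContinuousLinearMap.adjoint_inner_right, hAu,
          real_inner_smul_left]
      rw [h6]
      have h7 : l * ε * (⟪u, h⟫ + ⟪u, H u⟫ + ε * (‖H u‖ ^ 2 / 2)) ≤ 0 := by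
        refine mul_nonpos_of_nonneg_of_nonpos (by positivity) ?_
        linarith
      nlinarith
    · have hlt : ⟪a i, o⟫ + ‖A (a i)‖ < b i := lt_of_le_of_ne (hfeas i) hi
      have hcont : Continuous fun ε : ℝ =>
          ⟪a i, o + ε • ContinuousLinearMap.adjoint A h⟫ + ‖A (a i) + ε • H (A (a i))‖ := by
        fun_prop
      have h2 := hcont.tendsto 0
      simp only [zero_smul, add_zero] at h2
      filter_upwards [nhdsWithin_le_nhds (h2.eventually (gt_mem_nhds hlt))] with ε h3 using h3.le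
  have hse : ∀ᶠ ε in 𝓝[>] (0 : ℝ), ∀ i, ⟪a i, o + ε • ContinuousLinearMap.adjoint A h⟫ < b i := by
    rw [Filter.eventually_all]
    intro i
    have hcont : Continuous fun ε : ℝ => ⟪a i, o + ε • ContinuousLinearMap.adjoint A h⟫ := by
      fun_prop
    have h2 := hcont.tendsto 0
    simp only [zero_smul, add_zero] at h2
    exact nhdsWithin_le_nhds (h2.eventually (gt_mem_nhds (hs i)))
  obtain ⟨ε, ⟨h1, h2⟩, h3, h4, h5⟩ := ((hfe.and hse).and (n8_neg M
    (fun l => ⟪A (sv a b o (f l)), h⟫)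
    (fun l => lev (fun l => sv a b o (f l)) (sv a b o (f l))) hM)).exists
  have h6 := hmin (o + ε • ContinuousLinearMap.adjoint A h)
    ((ContinuousLinearMap.id ℝ (Eu d) + ε • H).comp A)
    (by rw [hdetε]; exact mul_pos h3 hA) h1 h2
  have hsp : ∀ i, 0 < b i - ⟪a i, o⟫ := fun i => sub_pos.2 (hs i)
  -- the new scaled normals
  have h7 : ∀ l, sv a b (o + ε • ContinuousLinearMap.adjoint A h) (f l) =
      (1 - ε * ⟪A (sv a b o (f l)), h⟫)⁻¹ • sv a b o (f l) := by
    intro l
    have h8 := (hsp (f l)).ne'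
    unfold sv
    rw [smul_smul, ← mul_inv]
    congr 2
    rw [inner_add_right, inner_smul_right, ContinuousLinearMap.adjoint_inner_right, map_smul,
      real_inner_smul_left]
    field_simp
    ring
  have hv : Spn fun l => sv a b o (f l) := by
    intro y hy
    apply hf y
    intro l
    have h9 := hy l
    unfold sv at h9
    rw [real_inner_smul_left] at h9
    rcases mul_eq_zero.1 h9 with h10 | h10
    · exact absurd h10 (inv_ne_zero (hsp (f l)).ne')
    · exact h10
  have h8 : (fr fun l => sv a b (o + ε • ContinuousLinearMap.adjoint A h) (f l)) =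
      frm (fun l => sv a b o (f l)) fun l => 1 * ((1 - ε * ⟪A (sv a b o (f l)), h⟫)⁻¹) ^ 2 := by
    rw [← frm_smul]
    unfold fr
    congr 1
    funext l
    exact h7 l
  have h9 := log_det_le (fun l => sv a b o (f l)) hv
    (fun l => 1 * ((1 - ε * ⟪A (sv a b o (f l)), h⟫)⁻¹) ^ 2)
    (fun l => by have := h4 l; positivity)
  unfold val at h6
  rw [h8, hdetε, Real.log_mul h3.ne' hA.ne'] at h6
  simp only [one_mul] at h6 h9
  linarith

theorem multipliers {d n : ℕ} (hd : 0 < d) {I : Type} [Fintype I] (a : I → Eu d) (b : I → ℝ)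
    (f : Fin n → I) (hf : Spn fun l => a (f l)) (o : Eu d) (A : Eu d →L[ℝ] Eu d)
    (hA : 0 < A.det) (hfeas : ∀ i, ⟪a i, o⟫ + ‖A (a i)‖ ≤ b i) (hs : ∀ i, ⟪a i, o⟫ < b i)
    (hmin : ∀ (o' : Eu d) (A' : Eu d →L[ℝ] Eu d), 0 < A'.det →
      (∀ i, ⟪a i, o'⟫ + ‖A' (a i)‖ ≤ b i) → (∀ i, ⟪a i, o'⟫ < b i) →
      val a b f o A ≤ val a b f o' A') :
    ∃ c : I → ℝ, Opt a b f o A c := by
  classical
  have hsp0 : ∀ i, 0 < b i - ⟪a i, o⟫ := fun i => sub_pos.2 (hs i)
  obtain ⟨S, hS⟩ : ∃ S : Finset I, S = Finset.univ.filter fun i => ⟪a i, o⟫ + ‖A (a i)‖ = b i :=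
    ⟨_, rfl⟩
  have hmemS : ∀ i, i ∈ S ↔ ⟪a i, o⟫ + ‖A (a i)‖ = b i := by
    intro i
    rw [hS]
    simp
  obtain ⟨s, hsdef⟩ : ∃ s : I → ℝ, s = fun i => b i - ⟪a i, o⟫ := ⟨_, rfl⟩
  have hsi : ∀ i, b i - ⟪a i, o⟫ = s i := fun i => by rw [hsdef]
  have hsp : ∀ i, 0 < s i := fun i => by rw [← hsi]; exact hsp0 i
  have hact : ∀ i ∈ S, ‖A (a i)‖ = s i := fun i hi => by
    rw [← hsi, ← (hmemS i).1 hi]
    ring
  obtain ⟨u, hu⟩ : ∃ u : I → Eu d, u = fun i => (s i)⁻¹ • A (a i) :=
    ⟨_, rfl⟩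
  have hui : ∀ i, u i = (s i)⁻¹ • A (a i) := fun i => by rw [hu]
  have hsvu : ∀ i, A (sv a b o i) = u i := fun i => by
    unfold sv
    rw [map_smul, hui, hsi]
  have hun : ∀ i ∈ S, ‖u i‖ = 1 := by
    intro i hi
    rw [hui, norm_smul, norm_inv, hact i hi, Real.norm_of_nonneg (hsp i).le,
      inv_mul_cancel₀ (hsp i).ne']
  obtain ⟨la, hla⟩ : ∃ la : Fin n → ℝ,
    la = fun l => lev (fun l => sv a b o (f l)) (sv a b o (f l)) := ⟨_, rfl⟩
  have hlal : ∀ l, lev (fun l => sv a b o (f l)) (sv a b o (f l)) = la l := fun l => by rw [hla]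
  obtain ⟨w, hw⟩ : ∃ w : S → Eu d × (Fin d → Fin d → ℝ),
    ∀ i, w i = (u i, fun j k => u i j * u i k) :=
    ⟨fun i => (u i, fun j k => u i j * u i k), fun i => rfl⟩
  obtain ⟨L, hL⟩ : ∃ L : (S → ℝ) →ₗ[ℝ] Eu d × (Fin d → Fin d → ℝ),
      ∀ c, L c = ∑ i, c i • w i := by
    refine ⟨∑ i, (LinearMap.proj i : (S → ℝ) →ₗ[ℝ] ℝ).smulRight (w i), fun c => ?_⟩
    simp
  obtain ⟨P, hP⟩ : ∃ P : Eu d × (Fin d → Fin d → ℝ),
    P = (-((1 / d : ℝ) • ∑ l, la l • u (f l)), fun j k => if j = k then (1 / d : ℝ) else 0) :=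
    ⟨_, rfl⟩
  have hd' : (0 : ℝ) < d := by exact_mod_cast hd
  have hmem : P ∈ L '' stdSimplex ℝ S := by
    by_contra hno
    have hKc : Convex ℝ (L '' stdSimplex ℝ S) := (convex_stdSimplex ℝ S).linear_image L
    have hKcl : IsClosed (L '' stdSimplex ℝ S) :=
      ((isCompact_stdSimplex ℝ S).image L.continuous_of_finiteDimensional).isClosed
    obtain ⟨f', r, hf1, hf2⟩ := geometric_hahn_banach_closed_point hKc hKcl hno
    obtain ⟨h, hh⟩ : ∃ h : Eu d, ∀ x, ⟪h, x⟫ = f' (x, 0) := by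
      refine ⟨(InnerProductSpace.toDual ℝ (Eu d)).symm
        (f'.comp (ContinuousLinearMap.inl ℝ _ _)), fun x => ?_⟩
      rw [InnerProductSpace.toDual_symm_apply]
      rfl
    obtain ⟨F, hF⟩ : ∃ F : Fin d → Fin d → ℝ, F = fun j k =>
      f' ((0 : Eu d), Pi.single j (Pi.single k 1)) := ⟨_, rfl⟩
    have hfv : ∀ (x : Eu d) (X : Fin d → Fin d → ℝ),
        f' (x, X) = ⟪h, x⟫ + ∑ j, ∑ k, F j k * X j k := by
      intro x X
      have h1 : (x, X) = (x, 0) + ∑ j, ∑ k,
          X j k • ((0 : Eu d), (Pi.single j (Pi.single k 1) :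
            Fin d → Fin d → ℝ)) := by
        refine Prod.ext ?_ ?_
        · simp [Prod.fst_sum]
        · simp only [Prod.snd_add, Prod.snd_sum, Prod.smul_snd, zero_add]
          ext j k
          simp only [Finset.sum_apply, Pi.smul_apply, smul_eq_mul]
          rw [Finset.sum_eq_single j, Finset.sum_eq_single k]
          · simp
          · intro k' _ hk'
            simp [Pi.single_apply, Ne.symm hk']
          · simp
          · intro j' _ hj'
            apply Finset.sum_eq_zero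
            intro k' _
            simp [Pi.single_apply, Ne.symm hj']
          · simp
      rw [h1, map_add, map_sum, hh]
      congr 1
      refine Finset.sum_congr rfl fun j _ => ?_
      rw [map_sum]
      refine Finset.sum_congr rfl fun k _ => ?_
      rw [map_smul, hF, smul_eq_mul, mul_comm]
    obtain ⟨M, hM⟩ : ∃ M : Matrix (Fin d) (Fin d) ℝ,
      M = Matrix.of fun j k => F j k - if j = k then r else 0 := ⟨_, rfl⟩
    have hMjk : ∀ j k, M j k = F j k - if j = k then r else 0 := by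
      intro j k; rw [hM]; rfl
    have htr : 0 < M.trace - ∑ l, lev (fun l => sv a b o (f l)) (sv a b o (f l)) *
        ⟪A (sv a b o (f l)), h⟫ := by
      have h0 : ∑ l, lev (fun l => sv a b o (f l)) (sv a b o (f l)) * ⟪A (sv a b o (f l)), h⟫ =
          ⟪h, ∑ l, la l • u (f l)⟫ := by
        rw [inner_sum]
        refine Finset.sum_congr rfl fun l _ => ?_
        rw [hsvu, hlal, real_inner_smul_right, real_inner_comm]
      have h1 : f' P = ((∑ j, F j j) - ⟪h, ∑ l, la l • u (f l)⟫) / d := by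
        rw [hP, hfv, inner_neg_right, inner_smul_right, sub_div, Finset.sum_div]
        have h3 : ∑ j, ∑ k, F j k * (if j = k then (1 / d : ℝ) else 0) = ∑ j, F j j / d := by
          refine Finset.sum_congr rfl fun j _ => ?_
          rw [Finset.sum_eq_single j]
          · simp [div_eq_mul_inv]
          · intro k _ hk
            simp [Ne.symm hk]
          · simp
        rw [h3]
        ring
      have h2 : M.trace = (∑ j, F j j) - d * r := by
        rw [Matrix.trace]
        simp only [Matrix.diag, hMjk, if_true, Finset.sum_sub_distrib, Finset.sum_const,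
          Finset.card_univ, Fintype.card_fin, nsmul_eq_mul]
      rw [h1, lt_div_iff₀ hd'] at hf2
      rw [h2, h0]
      linarith
    refine n8_no_improve a b f hf o A hA hfeas hs hmin h M htr fun i hi => ?_
    have hiS : i ∈ S := (hmemS i).2 hi
    rw [hact i hiS, ← hui, Pool.Agent.Helper88.QH.Ext.inner_toEuclideanLin]
    refine ⟨hsp i, ?_⟩
    have h1 : f' (w ⟨i, hiS⟩) < r := by
      apply hf1
      refine ⟨Pi.single ⟨i, hiS⟩ 1, single_mem_stdSimplex ℝ _, ?_⟩
      rw [hL, Finset.sum_eq_single ⟨i, hiS⟩]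
      · simp
      · intro j _ hj
        simp [Pi.single_apply, hj]
      · simp
    rw [hw, hfv] at h1
    have h2 : ∑ j, ∑ k, M j k * (u i j * u i k) =
        (∑ j, ∑ k, F j k * (u i j * u i k)) - r := by
      have h3 : ∑ j, u i j * u i j = 1 := by
        have h4 : ⟪u i, u i⟫ = (1 : ℝ) := by
          rw [real_inner_self_eq_norm_sq, hun i hiS, one_pow]
        rw [PiLp.inner_apply] at h4
        simpa [sq] using h4
      have h5 : ∑ j, ∑ k, (if j = k then r else 0) * (u i j * u i k) = r := by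
        have : ∀ j, ∑ k, (if j = k then r else 0) * (u i j * u i k) = r * (u i j * u i j) := by
          intro j
          rw [Finset.sum_eq_single j]
          · simp
          · intro k _ hk
            simp [Ne.symm hk]
          · simp
        simp only [this]
        rw [← Finset.mul_sum, h3, mul_one]
      simp only [hMjk, sub_mul, Finset.sum_sub_distrib]
      rw [h5]
    rw [h2, real_inner_comm]
    simp only at h1
    linarith
  obtain ⟨c, hc, hLc⟩ := hmem
  rw [hL, hP] at hLc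
  have hcen : ∑ i, c i • u i = -((1 / d : ℝ) • ∑ l, la l • u (f l)) := by
    have := congrArg Prod.fst hLc
    rw [Prod.fst_sum] at this
    simpa [hw] using this
  have hmat : ∀ j k, ∑ i, c i * (u i j * u i k) = if j = k then (1 / d : ℝ) else 0 := by
    intro j k
    have := congrFun (congrFun (congrArg Prod.snd hLc) j) k
    rw [Prod.snd_sum] at this
    simpa [hw] using this
  -- the weights on all of `I`
  obtain ⟨c', hc'⟩ : ∃ c' : I → ℝ, c' = fun i => if hi : i ∈ S then d * c ⟨i, hi⟩ else 0 := ⟨_, rfl⟩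
  have hc'S : ∀ i : S, c' i = d * c i := fun i => by
    rw [hc']
    simp
  have hc'0 : ∀ i, i ∉ S → c' i = 0 := fun i hi => by
    rw [hc']
    simp [hi]
  have hsum : ∀ {X : Type} [AddCommMonoid X] (g : I → X), (∀ i, i ∉ S → g i = 0) →
      ∑ i, g i = ∑ i : S, g i := by
    intro X _ g hg
    rw [← Finset.sum_subset (Finset.subset_univ S) fun i _ hi => hg i hi]
    exact (Finset.sum_coe_sort S g).symm
  refine ⟨c', hA, hfeas, hs, ?_, ?_, ?_, ?_, ?_⟩
  · intro i
    by_cases hi : i ∈ S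
    · have := hc'S ⟨i, hi⟩
      simp only at this
      rw [this]
      exact mul_nonneg hd'.le (hc.1 _)
    · rw [hc'0 i hi]
  · intro i hi
    have : i ∈ S := by
      by_contra h
      exact hi (hc'0 i h)
    rw [hact i this, hsi]
  · rw [hsum c' hc'0]
    simp only [hc'S]
    rw [← Finset.mul_sum, hc.2, mul_one]
  · simp only [hsvu, hlal]
    rw [hsum (fun i => c' i • u i) fun i hi => by rw [hc'0 i hi, zero_smul]]
    simp only [hc'S, mul_smul]
    rw [← Finset.smul_sum, hcen, smul_neg, smul_smul, mul_one_div_cancel hd'.ne', one_smul]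
  · intro v
    simp only [hsvu]
    rw [hsum (fun i => c' i * ⟪u i, v⟫ ^ 2) fun i hi => by rw [hc'0 i hi, zero_mul]]
    simp only [hc'S, mul_assoc]
    rw [← Finset.mul_sum]
    have h1 : ∀ i : S, ⟪u i, v⟫ ^ 2 = ∑ j, ∑ k, (v j * v k) * (u i j * u i k) := by
      intro i
      rw [PiLp.inner_apply, sq, Finset.sum_mul_sum]
      refine Finset.sum_congr rfl fun j _ => Finset.sum_congr rfl fun k _ => ?_
      simp only [RCLike.inner_apply, conj_trivial]
      ring
    have h2 : ∑ i : S, c i * ⟪u i, v⟫ ^ 2 = ∑ j, ∑ k, (v j * v k) * ∑ i : S, c i * (u i j * u i k) := by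
      simp only [h1, Finset.mul_sum]
      rw [Finset.sum_comm]
      refine Finset.sum_congr rfl fun j _ => ?_
      rw [Finset.sum_comm]
      refine Finset.sum_congr rfl fun k _ => Finset.sum_congr rfl fun i _ => ?_
      ring
    rw [h2]
    have h3 : ∀ j, ∑ k, (v j * v k) * ∑ i : S, c i * (u i j * u i k) = v j * v j * (1 / d) := by
      intro j
      simp only [hmat]
      rw [Finset.sum_eq_single j]
      · simp
      · intro k _ hk
        simp [Ne.symm hk]
      · simp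
    simp only [h3]
    rw [← Finset.sum_mul]
    have h4 : ∑ j, v j * v j = ‖v‖ ^ 2 := by
      rw [← real_inner_self_eq_norm_sq, PiLp.inner_apply]
      simp [sq]
    rw [h4]
    field_simp

end Pool.Agent.Helper57.NS
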