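import Mathlib
import Pool.Agent.Helper57.NS.Defs
import Pool.Agent.Helper57.NS.St.N1

set_option autoImplicit false

/-!
Project NS, piece N9: existence of a maximal list, and the trace bound for the determinant.

Hints. `exists_maximal_list`: take a list `(n₀, f₀)` with `P`; for large `n` the bound `B n` is
below `g n₀ f₀`; finitely many lists remain (a finite set of pairs, e.g. the
sigma type over `Fin (N + 1)`).  `log_det_le_trace`: every eigenvalue of `fr v` is at most the trace
`∑ i, ‖v i‖ ^ 2` (the eigenvalue of a unit eigenvector `e` is `∑ ⟪v i, e⟫ ^ 2`).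
`tendsto_bound`: `log` grows slower than a linear function (`Real.isLittleO_log_id_atTop`).
-/

namespace Pool.Agent.Helper57.NS

open scoped BigOperators RealInnerProductSpace

theorem exists_maximal_list {I : Type} [Fintype I] (P : (n : ℕ) → (Fin n → I) → Prop)
    (g : (n : ℕ) → (Fin n → I) → ℝ) (B : ℕ → ℝ)
    (hB : Filter.Tendsto B Filter.atTop Filter.atBot)
    (hg : ∀ (n : ℕ) (f : Fin n → I), P n f → g n f ≤ B n)
    (hP : ∃ (n : ℕ) (f : Fin n → I), P n f) :
    ∃ (n : ℕ) (f : Fin n → I), P n f ∧ ∀ (n' : ℕ) (f' : Fin n' → I), P n' f' → g n' f' ≤ g n f := by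
  classical
  obtain ⟨n₀, f₀, h₀⟩ := hP
  obtain ⟨N, hN⟩ := Filter.eventually_atTop.1
    (hB.eventually (Filter.eventually_lt_atBot (g n₀ f₀)))
  let T := Σ n : Fin (N + n₀ + 1), (Fin (n : ℕ) → I)
  let S : Finset T := Finset.univ.filter fun x => P (x.1 : ℕ) x.2
  have hmem₀ : (⟨⟨n₀, by omega⟩, f₀⟩ : T) ∈ S := by
    simpa [S] using h₀
  obtain ⟨x, hx, hmax⟩ := Finset.exists_max_image S (fun x => g (x.1 : ℕ) x.2) ⟨_, hmem₀⟩
  refine ⟨(x.1 : ℕ), x.2, by simpa [S] using hx, fun n' f' hP' => ?_⟩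
  by_cases hn : n' < N + n₀ + 1
  · have hmem : (⟨⟨n', hn⟩, f'⟩ : T) ∈ S := by simpa [S] using hP'
    exact hmax _ hmem
  · have h1 := hg n' f' hP'
    have h2 := hN n' (by omega)
    have h3 := hmax _ hmem₀
    have h3' : g n₀ f₀ ≤ g (x.1 : ℕ) x.2 := h3
    linarith

theorem log_det_le_trace {d : ℕ} {ι : Type} [Fintype ι] (v : ι → Eu d) (hv : Spn v) :
    Real.log (LinearMap.det (fr v)) ≤ d * Real.log (∑ i, ‖v i‖ ^ 2) := by
  have hin : ∀ x y : Eu d, ⟪fr v x, y⟫ = ∑ i, ⟪v i, x⟫ * ⟪v i, y⟫ := by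
    intro x y
    rw [fr_apply, sum_inner]
    refine Finset.sum_congr rfl fun i _ => ?_
    rw [real_inner_smul_left]
  have hs : (fr v).IsSymmetric := by
    intro x y
    rw [hin x y, real_inner_comm, hin y x]
    exact Finset.sum_congr rfl fun i _ => mul_comm _ _
  have hd : Module.finrank ℝ (Eu d) = d := by simp
  have hdet : LinearMap.det (fr v) = ∏ j, hs.eigenvalues hd j := by
    simpa using hs.det_eq_prod_eigenvalues hd
  have heig : ∀ j, hs.eigenvalues hd j = ∑ i, ⟪v i, hs.eigenvectorBasis hd j⟫ ^ 2 := by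
    intro j
    have h1 := hs.apply_eigenvectorBasis hd j
    have h2 := hin (hs.eigenvectorBasis hd j) (hs.eigenvectorBasis hd j)
    rw [h1, real_inner_smul_left, real_inner_self_eq_norm_sq,
      (hs.eigenvectorBasis hd).orthonormal.1 j] at h2
    simp only [one_pow, mul_one] at h2
    calc hs.eigenvalues hd j = _ := h2
      _ = _ := Finset.sum_congr rfl fun i _ => (sq _).symm
  have hpos : ∀ j, 0 < hs.eigenvalues hd j := by
    intro j
    rw [heig]
    refine lt_of_le_of_ne (Finset.sum_nonneg fun i _ => sq_nonneg _) fun h0 => ?_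
    have h1 : ∀ i, ⟪v i, hs.eigenvectorBasis hd j⟫ = 0 := by
      intro i
      have := (Finset.sum_eq_zero_iff_of_nonneg (fun i _ => sq_nonneg _)).1 h0.symm i
        (Finset.mem_univ i)
      exact pow_eq_zero_iff (two_ne_zero) |>.1 this
    have h2 := hv _ h1
    have h3 := (hs.eigenvectorBasis hd).orthonormal.1 j
    rw [h2, norm_zero] at h3
    exact zero_ne_one h3
  have hle : ∀ j, hs.eigenvalues hd j ≤ ∑ i, ‖v i‖ ^ 2 := by
    intro j
    rw [heig]
    refine Finset.sum_le_sum fun i _ => ?_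
    have h1 := abs_real_inner_le_norm (v i) (hs.eigenvectorBasis hd j)
    rw [(hs.eigenvectorBasis hd).orthonormal.1 j, mul_one] at h1
    have h2 := abs_nonneg ⟪v i, hs.eigenvectorBasis hd j⟫
    calc ⟪v i, hs.eigenvectorBasis hd j⟫ ^ 2 = |⟪v i, hs.eigenvectorBasis hd j⟫| ^ 2 :=
          (sq_abs _).symm
      _ ≤ ‖v i‖ ^ 2 := pow_le_pow_left₀ h2 h1 2
  rw [hdet, Real.log_prod (fun j _ => (hpos j).ne')]
  calc ∑ j, Real.log (hs.eigenvalues hd j) ≤ ∑ _j : Fin d, Real.log (∑ i, ‖v i‖ ^ 2) :=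
        Finset.sum_le_sum fun j _ => Real.log_le_log (hpos j) (hle j)
    _ = d * Real.log (∑ i, ‖v i‖ ^ 2) := by simp

theorem tendsto_bound (d : ℕ) (C C' α : ℝ) (hC : 0 < C) (hα : 1 < α) :
    Filter.Tendsto (fun n : ℕ => (d : ℝ) * Real.log (n * C) + C' - n * Real.log α)
      Filter.atTop Filter.atBot := by
  have hl : 0 < Real.log α := Real.log_pos hα
  have h1 : Filter.Tendsto (fun n : ℕ => (n : ℝ) * C) Filter.atTop Filter.atTop :=
    tendsto_natCast_atTop_atTop.atTop_mul_const hC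
  have h2 := Real.isLittleO_log_id_atTop.comp_tendsto h1
  have hd1 : (0 : ℝ) < d + 1 := by positivity
  have hc : 0 < Real.log α / (2 * (d + 1) * C) := by positivity
  have h3 := h2.bound hc
  have hlin : Filter.Tendsto (fun n : ℕ => C' - (Real.log α / 2) * (n : ℝ))
      Filter.atTop Filter.atBot := by
    have h4 : Filter.Tendsto (fun n : ℕ => (Real.log α / 2) * (n : ℝ)) Filter.atTop
        Filter.atTop := tendsto_natCast_atTop_atTop.const_mul_atTop (by positivity)
    have h5 := Filter.tendsto_atBot_add_const_left Filter.atTop C'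
      (Filter.tendsto_neg_atTop_atBot.comp h4)
    exact h5
  refine Filter.tendsto_atBot_mono' _ ?_ hlin
  filter_upwards [h3] with n hn
  simp only [Function.comp, id, Real.norm_eq_abs] at hn
  have hn0 : (0 : ℝ) ≤ n := Nat.cast_nonneg n
  rw [abs_of_nonneg (by positivity : (0 : ℝ) ≤ (n : ℝ) * C)] at hn
  have h6 : Real.log α / (2 * (d + 1) * C) * ((n : ℝ) * C) = Real.log α * n / (2 * (d + 1)) := by
    field_simp
  rw [h6] at hn
  have h7 : (d : ℝ) * Real.log (n * C) ≤ d * (Real.log α * n / (2 * (d + 1))) :=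
    mul_le_mul_of_nonneg_left ((le_abs_self _).trans hn) (Nat.cast_nonneg d)
  have h8 : (d : ℝ) * (Real.log α * n / (2 * (d + 1))) ≤ Real.log α / 2 * n := by
    have : Real.log α / 2 * n = (d + 1) * (Real.log α * n / (2 * (d + 1))) := by
      field_simp
    rw [this]
    exact mul_le_mul_of_nonneg_right (by linarith) (by positivity)
  linarith

end Pool.Agent.Helper57.NS
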