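import Mathlib
import Pool.Agent.Helper33.QH.Cara
import Pool.Agent.Helper57.NS.Defs

set_option autoImplicit false

/-!
Project NS, piece N11: duality for a bounded polytope `{y | ⟪u i, y⟫ ≤ 1}`, and the centred measure.

Hints. `dual_combo`: the set `c • convexHull ({0} ∪ range u)` (or the image of a simplex, as in
`Pool/Agent/Helper88/QH/Extremal.lean`) is compact and convex; if `t` is outside, separate
(`geometric_hahn_banach_closed_point`): `y` with `⟪t, y⟫ > max (0, c max ⟪u i, y⟫)`; by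
boundedness `max ⟪u i, y⟫ > 0`; scale `y` so that the maximum is `1`: contradiction to `h`.  Then
`Pool.Agent.Helper33.QH.conic_cara`.  `zero_combo`: `0` in the convex hull of the `u i`, same proof
(otherwise all `⟪u i, y⟫ < 0` and the ray of `y` is in the polytope; `I` is nonempty since `d > 0`).
-/

namespace Pool.Agent.Helper57.NS

open scoped BigOperators RealInnerProductSpace

private theorem n11_sep {d : ℕ} {I : Type} [Fintype I] (u : I → Eu d) (P : Set (I → ℝ))
    (hP : IsCompact P) (hPc : Convex ℝ P) (t : Eu d)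
    (ht : ¬ ∃ p ∈ P, ∑ i, p i • u i = t) :
    ∃ (y : Eu d) (m : ℝ), (∀ p ∈ P, ∑ i, p i * ⟪u i, y⟫ < m) ∧ m < ⟪t, y⟫ := by
  let L : (I → ℝ) →ₗ[ℝ] Eu d := ∑ i, (LinearMap.proj i : (I → ℝ) →ₗ[ℝ] ℝ).smulRight (u i)
  have hL : ∀ p : I → ℝ, L p = ∑ i, p i • u i := by
    intro p
    simp [L, LinearMap.sum_apply]
  have hLc : Continuous L := L.continuous_of_finiteDimensional
  have h1 : IsCompact (L '' P) := hP.image hLc
  have h2 : Convex ℝ (L '' P) := hPc.linear_image L
  have h3 : t ∉ L '' P := by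
    rintro ⟨p, hp, hpt⟩
    exact ht ⟨p, hp, by rw [← hL]; exact hpt⟩
  obtain ⟨f, m, hf1, hf2⟩ := geometric_hahn_banach_closed_point h2 h1.isClosed h3
  refine ⟨(InnerProductSpace.toDual ℝ (Eu d)).symm f, m, ?_, ?_⟩
  · intro p hp
    have h4 := hf1 (L p) ⟨p, hp, rfl⟩
    rw [hL, map_sum] at h4
    refine lt_of_le_of_lt (le_of_eq ?_) h4
    refine Finset.sum_congr rfl (fun i _ => ?_)
    rw [map_smul, smul_eq_mul, real_inner_comm, InnerProductSpace.toDual_symm_apply]
  · rw [real_inner_comm, InnerProductSpace.toDual_symm_apply]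
    exact hf2

theorem dual_combo {d : ℕ} {I : Type} [Fintype I] (u : I → Eu d) (R : ℝ)
    (hbdd : ∀ y : Eu d, (∀ i, ⟪u i, y⟫ ≤ 1) → ‖y‖ ≤ R) (t : Eu d) (c : ℝ) (hc : 0 ≤ c)
    (h : ∀ y : Eu d, (∀ i, ⟪u i, y⟫ ≤ 1) → ⟪t, y⟫ ≤ c) :
    ∃ (W : Finset I) (p : I → ℝ), W.card ≤ d ∧ (∀ i, 0 ≤ p i) ∧ ∑ i ∈ W, p i ≤ c ∧
      ∑ i ∈ W, p i • u i = t := by
  classical
  by_contra hcon
  let P : Set (I → ℝ) := Set.Icc 0 (fun _ => c) ∩ {p | ∑ i, p i ≤ c}
  have hPk : IsCompact P := by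
    refine isCompact_Icc.inter_right ?_
    exact isClosed_le (by fun_prop) continuous_const
  have hPc : Convex ℝ P := by
    refine (convex_Icc _ _).inter ?_
    intro p hp q hq a b ha hb hab
    simp only [Set.mem_setOf_eq] at hp hq ⊢
    have h1 : ∑ i, (a • p + b • q) i = a * ∑ i, p i + b * ∑ i, q i := by
      simp only [Pi.add_apply, Pi.smul_apply, smul_eq_mul]
      rw [Finset.sum_add_distrib, Finset.mul_sum, Finset.mul_sum]
    rw [h1]
    calc a * ∑ i, p i + b * ∑ i, q i ≤ a * c + b * c :=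
          add_le_add (mul_le_mul_of_nonneg_left hp ha) (mul_le_mul_of_nonneg_left hq hb)
      _ = c := by rw [← add_mul, hab, one_mul]
  have hno : ¬ ∃ p ∈ P, ∑ i, p i • u i = t := by
    rintro ⟨p, hp, hpt⟩
    apply hcon
    obtain ⟨s, q, h1, h2, h3, h4⟩ := Pool.Agent.Helper33.QH.conic_cara u p (fun i => hp.1.1 i)
    exact ⟨s, q, h1, h2, h4.trans hp.2, h3.trans hpt⟩
  obtain ⟨y, m, hy1, hy2⟩ := n11_sep u P hPk hPc t hno
  have hm0 : 0 < m := by
    have h1 := hy1 0 ⟨⟨le_refl _, fun _ => hc⟩, by simpa using hc⟩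
    simpa using h1
  have hmi : ∀ i, c * ⟪u i, y⟫ < m := by
    intro i
    have h1 := hy1 (Pi.single i c) ⟨⟨?_, ?_⟩, ?_⟩
    · rw [Finset.sum_eq_single i] at h1
      · simpa using h1
      · intro j _ hj
        rw [Pi.single_eq_of_ne hj, zero_mul]
      · intro hi
        exact absurd (Finset.mem_univ i) hi
    · intro j
      by_cases hj : j = i
      · subst hj
        simpa using hc
      · simp [Pi.single_eq_of_ne hj]
    · intro j
      by_cases hj : j = i
      · subst hj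
        simp
      · simp [Pi.single_eq_of_ne hj, hc]
    · simp
  have hty : 0 < ⟪t, y⟫ := lt_trans hm0 hy2
  by_cases hall : ∀ i, ⟪u i, y⟫ ≤ 0
  · have h1 := h (((c + 1) / ⟪t, y⟫) • y) (by
      intro i
      rw [inner_smul_right]
      have h2 : 0 ≤ (c + 1) / ⟪t, y⟫ := by positivity
      have h3 := mul_nonneg h2 (neg_nonneg.2 (hall i))
      linarith)
    rw [inner_smul_right, div_mul_cancel₀ _ hty.ne'] at h1
    linarith
  · push Not at hall
    obtain ⟨i1, hi1⟩ := hall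
    obtain ⟨i0, -, hi0⟩ := Finset.exists_max_image Finset.univ (fun i => ⟪u i, y⟫)
      ⟨i1, Finset.mem_univ _⟩
    have hs : 0 < ⟪u i0, y⟫ := lt_of_lt_of_le hi1 (hi0 i1 (Finset.mem_univ _))
    have h1 := h ((⟪u i0, y⟫)⁻¹ • y) (by
      intro i
      rw [inner_smul_right, inv_mul_le_iff₀ hs, mul_one]
      exact hi0 i (Finset.mem_univ _))
    rw [inner_smul_right, inv_mul_le_iff₀ hs] at h1
    have h2 := hmi i0
    rw [mul_comm] at h2
    linarith

theorem zero_combo {d : ℕ} (hd : 0 < d) {I : Type} [Fintype I] (u : I → Eu d) (R : ℝ)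
    (hbdd : ∀ y : Eu d, (∀ i, ⟪u i, y⟫ ≤ 1) → ‖y‖ ≤ R) :
    ∃ μ : I → ℝ, (∀ i, 0 ≤ μ i) ∧ ∑ i, μ i = 1 ∧ ∑ i, μ i • u i = 0 := by
  classical
  by_contra hcon
  have hy : ∃ y : Eu d, y ≠ 0 ∧ ∀ i, ⟪u i, y⟫ ≤ 0 := by
    rcases isEmpty_or_nonempty I with hI | ⟨⟨i1⟩⟩
    · refine ⟨EuclideanSpace.single ⟨0, hd⟩ 1, ?_, fun i => (hI.false i).elim⟩
      intro h0
      have h1 := congrArg (fun z : Eu d => ‖z‖) h0
      simp at h1
    · obtain ⟨y, m, hy1, hy2⟩ := n11_sep u (stdSimplex ℝ I) (isCompact_stdSimplex ℝ I)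
        (convex_stdSimplex ℝ I) 0 (by
          rintro ⟨p, hp, hpt⟩
          exact hcon ⟨p, hp.1, hp.2, hpt⟩)
      rw [inner_zero_left] at hy2
      have hneg : ∀ i, ⟪u i, y⟫ < 0 := by
        intro i
        have h1 := hy1 (Pi.single i 1) (single_mem_stdSimplex ℝ i)
        rw [Finset.sum_eq_single i] at h1
        · rw [Pi.single_eq_same, one_mul] at h1
          linarith
        · intro j _ hj
          rw [Pi.single_eq_of_ne hj, zero_mul]
        · intro hi
          exact absurd (Finset.mem_univ i) hi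
      refine ⟨y, ?_, fun i => (hneg i).le⟩
      rintro rfl
      have := hneg i1
      rw [inner_zero_right] at this
      exact lt_irrefl _ this
  obtain ⟨y, hy0, hyi⟩ := hy
  have hn : 0 < ‖y‖ := norm_pos_iff.2 hy0
  have hR : 0 ≤ R := le_trans (norm_nonneg (0 : Eu d)) (hbdd 0 (fun i => by
    rw [inner_zero_right]
    exact zero_le_one))
  have h1 := hbdd (((R + 1) / ‖y‖) • y) (by
    intro i
    rw [inner_smul_right]
    have h2 : 0 ≤ (R + 1) / ‖y‖ := by positivity
    have h3 := mul_nonneg h2 (neg_nonneg.2 (hyi i))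
    linarith)
  rw [norm_smul, Real.norm_eq_abs, abs_of_nonneg (by positivity), div_mul_cancel₀ _ hn.ne'] at h1
  linarith

end Pool.Agent.Helper57.NS
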