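import Mathlib
import Pool.Agent.Helper15.QH.Halving
import Pool.Agent.Helper57.NS.Defs
import Pool.Agent.Helper57.NS.St.N11

set_option autoImplicit false

/-!
Project NS, piece N12: the centred measure `ν` on the facets (Step 2 of the proof).

Hints. For signs `σ : Fin d → Bool` put `θ σ = (1 / (D √d)) ∑ j, sg (σ j) e j`, of norm `1 / D`.
`dual_combo` with `t = θ σ`, `c = 1` and `zero_combo` (add `(1 - ∑ p) μ`) give a probability vector
`ν σ` with `∑ ν σ i • u i = θ σ`; `ν` is the average over `σ`, `∑ θ σ = 0`.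
`∑ i, ν i |⟪u i, y⟫| ≥ avg_σ |⟪θ σ, y⟫| = (1 / (D √d)) avg_σ |∑ sg (σ j) y j| ≥ ‖y‖ / (D √(3 d))`
by `khintchine` below; prove that by `(E X²)³ ≤ (E |X|)² E X⁴` (Hölder), or directly from
`|X| ≥ (3 √3 / 2) (X² / K - X⁴ / (3 ...))`: for every `K > 0`, `|X| ≥ (3 √3 / 2) (X² / K - X⁴ / K³) `
(the maximum of `s - s³` for `s ≥ 0` is `2 / (3 √3)`), `E X² = ‖y‖²`, `E X⁴ ≤ 3 ‖y‖⁴`, `K = 3 ‖y‖`.
`Helper15.QH.sum_sq` is the second moment; the fourth moment by the same induction.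
-/

namespace Pool.Agent.Helper57.NS

open scoped BigOperators RealInnerProductSpace
open Pool.Agent.Helper15.QH (sg)

/-- Fourth moment. -/
private theorem sum_four (N : ℕ) : ∀ (a : ℝ) (x : Fin N → ℝ),
    ∑ ε : Fin N → Bool, (a + ∑ l, sg (ε l) * x l) ^ 4 ≤
      2 ^ N * (a ^ 4 + 6 * a ^ 2 * (∑ l, x l ^ 2) + 3 * (∑ l, x l ^ 2) ^ 2) := by
  induction N with
  | zero => intro a x; simp
  | succ N ih =>
    intro a x
    rw [Pool.Agent.Helper15.QH.sum_cons, Finset.sum_add_distrib]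
    have h1 : ∀ ε : Fin N → Bool, (a + ∑ l, sg ((Fin.cons true ε : Fin (N + 1) → Bool) l) * x l)
        = (a + x 0) + ∑ l : Fin N, sg (ε l) * x l.succ := by
      intro ε; rw [Fin.sum_univ_succ]; simp; ring
    have h2 : ∀ ε : Fin N → Bool, (a + ∑ l, sg ((Fin.cons false ε : Fin (N + 1) → Bool) l) * x l)
        = (a - x 0) + ∑ l : Fin N, sg (ε l) * x l.succ := by
      intro ε; rw [Fin.sum_univ_succ]; simp; ring
    simp_rw [h1, h2]
    have i1 := ih (a + x 0) (fun l => x l.succ)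
    have i2 := ih (a - x 0) (fun l => x l.succ)
    rw [Fin.sum_univ_succ]
    set T := ∑ l : Fin N, x l.succ ^ 2 with hT
    refine (add_le_add i1 i2).trans ?_
    have hx : 0 ≤ x 0 ^ 4 := by positivity
    have h2N : (0 : ℝ) < 2 ^ N := by positivity
    have key : ((a + x 0) ^ 4 + 6 * (a + x 0) ^ 2 * T + 3 * T ^ 2) +
        ((a - x 0) ^ 4 + 6 * (a - x 0) ^ 2 * T + 3 * T ^ 2) ≤
        2 * (a ^ 4 + 6 * a ^ 2 * (x 0 ^ 2 + T) + 3 * (x 0 ^ 2 + T) ^ 2) := by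
      nlinarith [hx]
    calc _ = 2 ^ N * (((a + x 0) ^ 4 + 6 * (a + x 0) ^ 2 * T + 3 * T ^ 2) +
        ((a - x 0) ^ 4 + 6 * (a - x 0) ^ 2 * T + 3 * T ^ 2)) := by ring
      _ ≤ 2 ^ N * (2 * (a ^ 4 + 6 * a ^ 2 * (x 0 ^ 2 + T) + 3 * (x 0 ^ 2 + T) ^ 2)) :=
          mul_le_mul_of_nonneg_left key h2N.le
      _ = _ := by ring

theorem khintchine {N : ℕ} (x : Fin N → ℝ) :
    2 ^ N * √(∑ l, x l ^ 2) ≤ √3 * ∑ ε : Fin N → Bool, |∑ l, sg (ε l) * x l| := by
  set V := ∑ l, x l ^ 2 with hV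
  have hV0 : 0 ≤ V := Finset.sum_nonneg fun l _ => sq_nonneg _
  set s := √V with hs
  have hs0 : 0 ≤ s := Real.sqrt_nonneg _
  have hss : s ^ 2 = V := Real.sq_sqrt hV0
  have hq0 : 0 ≤ √3 := Real.sqrt_nonneg _
  have hqq : (√3 : ℝ) ^ 2 = 3 := Real.sq_sqrt (by norm_num)
  rcases hs0.eq_or_lt with h0 | hpos
  · rw [← h0, mul_zero]
    exact mul_nonneg hq0 (Finset.sum_nonneg fun _ _ => abs_nonneg _)
  · have hpt : ∀ ε : Fin N → Bool, 9 * s ^ 2 * (0 + ∑ l, sg (ε l) * x l) ^ 2 -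
        (0 + ∑ l, sg (ε l) * x l) ^ 4 ≤ 6 * s ^ 3 * (√3 * |∑ l, sg (ε l) * x l|) := by
      intro ε
      rw [zero_add]
      set X := ∑ l, sg (ε l) * x l with hX
      have e2 : X ^ 2 = |X| ^ 2 := (sq_abs X).symm
      have e4 : X ^ 4 = |X| ^ 4 := by
        rw [show X ^ 4 = (X ^ 2) ^ 2 by ring, e2]; ring
      rw [e4, e2]
      set p := |X| with hp
      have hp0 : 0 ≤ p := abs_nonneg _
      set r := √3 * s with hr
      have hr0 : 0 ≤ r := mul_nonneg hq0 hs0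
      have hr2 : r ^ 2 = 3 * s ^ 2 := by rw [hr, mul_pow, hqq]
      have hr3 : r ^ 3 = 3 * s ^ 3 * √3 := by
        rw [show r ^ 3 = r ^ 2 * r by ring, hr2, hr]; ring
      have hk : 0 ≤ p * ((p - r) ^ 2 * (p + 2 * r)) := by positivity
      have : p * ((p - r) ^ 2 * (p + 2 * r)) = p ^ 4 - 3 * p ^ 2 * r ^ 2 + 2 * p * r ^ 3 := by ring
      rw [this, hr2, hr3] at hk
      nlinarith [hk]
    have hsum := Finset.sum_le_sum fun ε (_ : ε ∈ (Finset.univ : Finset (Fin N → Bool))) => hpt ε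
    rw [Finset.sum_sub_distrib, ← Finset.mul_sum, ← Finset.mul_sum, ← Finset.mul_sum,
      Pool.Agent.Helper15.QH.sum_sq N 0 x] at hsum
    have h4 := sum_four N 0 x
    rw [← hV] at hsum h4
    rw [← hss] at hsum h4
    have h6 : 6 * s ^ 3 * (2 ^ N * s) ≤
        6 * s ^ 3 * (√3 * ∑ ε : Fin N → Bool, |∑ l, sg (ε l) * x l|) := by
      nlinarith [hsum, h4]
    exact le_of_mul_le_mul_left h6 (by positivity)

/-- The sum of the signs of one coordinate vanishes. -/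
private theorem sum_sg_zero {d : ℕ} (j : Fin d) : ∑ σ : Fin d → Bool, sg (σ j) = 0 := by
  have e : ∑ σ : Fin d → Bool, sg (σ j) = ∑ σ : Fin d → Bool, sg (!(σ j)) := by
    refine (Equiv.sum_comp (Equiv.piCongrRight fun _ : Fin d => Equiv.boolNot)
      (fun σ : Fin d → Bool => sg (σ j))).symm.trans ?_
    refine Finset.sum_congr rfl fun σ _ => ?_
    simp
  have e2 : ∑ σ : Fin d → Bool, sg (!(σ j)) = -∑ σ : Fin d → Bool, sg (σ j) := by
    rw [← Finset.sum_neg_distrib]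
    exact Finset.sum_congr rfl fun σ _ => Pool.Agent.Helper15.QH.sg_not _
  linarith

private theorem sg_sq (b : Bool) : sg b ^ 2 = 1 := by cases b <;> simp [sg]

theorem measure {d : ℕ} (hd : 0 < d) {I : Type} [Fintype I] (u : I → Eu d) (D : ℝ) (hD : 0 < D)
    (hbdd : ∀ y : Eu d, (∀ i, ⟪u i, y⟫ ≤ 1) → ‖y‖ ≤ D) :
    ∃ ν : I → ℝ, (∀ i, 0 ≤ ν i) ∧ ∑ i, ν i = 1 ∧ ∑ i, ν i • u i = 0 ∧
      ∀ y : Eu d, ‖y‖ ≤ D * √(3 * d) * ∑ i, ν i * |⟪u i, y⟫| := by
  classical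
  have hdR : (0 : ℝ) < d := by exact_mod_cast hd
  have hsd : 0 < √(d : ℝ) := Real.sqrt_pos.2 hdR
  have hsd2 : √(d : ℝ) ^ 2 = d := Real.sq_sqrt hdR.le
  obtain ⟨μ, hμ0, hμ1, hμ2⟩ := zero_combo hd u D hbdd
  -- the sign vectors
  let κ : ℝ := (D * √(d : ℝ))⁻¹
  have hκ : 0 < κ := by positivity
  let θ : (Fin d → Bool) → Eu d := fun σ => κ • WithLp.toLp 2 fun j => sg (σ j)
  have hin : ∀ σ (y : Eu d), ⟪θ σ, y⟫ = κ * ∑ j, sg (σ j) * y j := by
    intro σ y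
    simp only [θ]
    rw [real_inner_smul_left, PiLp.inner_apply]
    refine congrArg (κ * ·) (Finset.sum_congr rfl fun j _ => ?_)
    simp [mul_comm]
  have hnorm : ∀ σ, ‖θ σ‖ = 1 / D := by
    intro σ
    simp only [θ]
    rw [norm_smul, EuclideanSpace.norm_eq]
    simp only [Real.norm_eq_abs, sq_abs, sg_sq]
    rw [abs_of_pos hκ]
    simp only [Finset.sum_const, Finset.card_univ, Fintype.card_fin, nsmul_eq_mul, mul_one, κ]
    field_simp
  have hex : ∀ σ : Fin d → Bool, ∃ p : I → ℝ, (∀ i, 0 ≤ p i) ∧ ∑ i, p i = 1 ∧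
      ∑ i, p i • u i = θ σ := by
    intro σ
    obtain ⟨W, p, -, hp0, hp1, hp2⟩ := dual_combo u D hbdd (θ σ) 1 zero_le_one (by
      intro y hy
      calc ⟪θ σ, y⟫ ≤ ‖θ σ‖ * ‖y‖ := real_inner_le_norm _ _
        _ ≤ 1 / D * D := by
            rw [hnorm]
            exact mul_le_mul_of_nonneg_left (hbdd y hy) (by positivity)
        _ = 1 := by field_simp)
    refine ⟨fun i => (if i ∈ W then p i else 0) + (1 - ∑ i ∈ W, p i) * μ i, ?_, ?_, ?_⟩
    · intro i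
      have h1 : 0 ≤ (if i ∈ W then p i else 0) := by split_ifs; exacts [hp0 i, le_rfl]
      have h2 : 0 ≤ (1 - ∑ i ∈ W, p i) * μ i := mul_nonneg (by linarith) (hμ0 i)
      exact add_nonneg h1 h2
    · rw [Finset.sum_add_distrib, ← Finset.mul_sum, hμ1, mul_one, Finset.sum_ite_mem,
        Finset.univ_inter]
      ring
    · simp only [add_smul, mul_smul, Finset.sum_add_distrib, ← Finset.smul_sum, hμ2, smul_zero,
        add_zero]
      rw [← hp2]
      simp only [ite_smul, zero_smul, Finset.sum_ite_mem, Finset.univ_inter]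
  choose P hP0 hP1 hP2 using hex
  have h2d : (0 : ℝ) < 2 ^ d := by positivity
  refine ⟨fun i => (2 ^ d : ℝ)⁻¹ * ∑ σ, P σ i, ?_, ?_, ?_, ?_⟩
  · intro i
    exact mul_nonneg (by positivity) (Finset.sum_nonneg fun σ _ => hP0 σ i)
  · rw [← Finset.mul_sum, Finset.sum_comm]
    simp only [hP1, Finset.sum_const, Finset.card_univ, Fintype.card_fun, Fintype.card_bool,
      Fintype.card_fin, nsmul_eq_mul, mul_one, Nat.cast_pow, Nat.cast_ofNat]
    exact inv_mul_cancel₀ h2d.ne'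
  · simp only [mul_smul, ← Finset.smul_sum, Finset.sum_smul]
    rw [Finset.sum_comm]
    simp only [hP2]
    have : ∑ σ, θ σ = 0 := by
      ext j
      simp only [θ, ← Finset.smul_sum]
      rw [PiLp.smul_apply, WithLp.ofLp_sum, Finset.sum_apply]
      simp only [sum_sg_zero, smul_zero]
      rfl
    rw [this, smul_zero]
  · intro y
    have hk := khintchine (fun j => y j)
    have hny : √(∑ l, y l ^ 2) = ‖y‖ := by
      rw [EuclideanSpace.norm_eq]
      simp only [Real.norm_eq_abs, sq_abs]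
    rw [hny] at hk
    have hσ : ∀ σ, κ * |∑ j, sg (σ j) * y j| ≤ ∑ i, P σ i * |⟪u i, y⟫| := by
      intro σ
      calc κ * |∑ j, sg (σ j) * y j| = |⟪θ σ, y⟫| := by
            rw [hin, abs_mul, abs_of_pos hκ]
        _ = |∑ i, P σ i * ⟪u i, y⟫| := by
            rw [← hP2 σ, sum_inner]
            simp only [real_inner_smul_left]
        _ ≤ ∑ i, |P σ i * ⟪u i, y⟫| := Finset.abs_sum_le_sum_abs _ _
        _ = ∑ i, P σ i * |⟪u i, y⟫| := by
            refine Finset.sum_congr rfl fun i _ => ?_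
            rw [abs_mul, abs_of_nonneg (hP0 σ i)]
    have hS := Finset.sum_le_sum fun σ (_ : σ ∈ (Finset.univ : Finset (Fin d → Bool))) => hσ σ
    rw [← Finset.mul_sum, Finset.sum_comm] at hS
    have e1 : ∑ i, ((2 ^ d : ℝ)⁻¹ * ∑ σ, P σ i) * |⟪u i, y⟫| =
        (2 ^ d : ℝ)⁻¹ * ∑ i, ∑ σ, P σ i * |⟪u i, y⟫| := by
      rw [Finset.mul_sum]
      refine Finset.sum_congr rfl fun i _ => ?_
      rw [mul_assoc, Finset.sum_mul]
    rw [e1]
    set A := ∑ σ : Fin d → Bool, |∑ j, sg (σ j) * y j| with hA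
    set B := ∑ i, ∑ σ, P σ i * |⟪u i, y⟫| with hB
    have e3 : √(3 * (d : ℝ)) = √3 * √(d : ℝ) := Real.sqrt_mul (by norm_num) _
    rw [e3]
    have hq0 : 0 ≤ √(3 : ℝ) := Real.sqrt_nonneg _
    have hk2 : ‖y‖ ≤ (2 ^ d : ℝ)⁻¹ * (√3 * A) := by
      rw [le_inv_mul_iff₀ h2d]; exact hk
    refine hk2.trans ?_
    have hAB : A ≤ D * √(d : ℝ) * B := by
      have : A = D * √(d : ℝ) * (κ * A) := by
        simp only [κ]; field_simp
      rw [this]
      exact mul_le_mul_of_nonneg_left hS (by positivity)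
    calc (2 ^ d : ℝ)⁻¹ * (√3 * A) ≤ (2 ^ d : ℝ)⁻¹ * (√3 * (D * √(d : ℝ) * B)) := by
          gcongr
      _ = _ := by ring

end Pool.Agent.Helper57.NS
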