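import Mathlib
import Pool.Agent.Helper57.NS.Defs

set_option autoImplicit false

/-!
Project NS, piece N13: a long list of facets representing the measure `ν`.

Hints. `N = 2 ^ S * q` large.  Choose natural numbers `k i` with `∑ k i = N` and
`|k i / N - ν i| ≤ 1 / N` for all but one `i`, `≤ |I| / N` for the last one (floors, the rest to one
index; `I` is nonempty because `∑ ν = 1`), and a map `g : Fin N → I` taking the value `i` exactly
`k i` times (e.g. through an equivalence of `Fin N` with `Σ i, Fin (k i)`).  Both sums differ from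
those with `ν` by at most `∑ i |k i / N - ν i| ‖u i‖ ‖y‖ ≤ (2 |I| / N) (∑ ‖u i‖) ‖y‖`, and
`∑ ν i ⟪u i, y⟫ = 0`.
-/

namespace Pool.Agent.Helper57.NS

open scoped BigOperators RealInnerProductSpace

/-- rounding a probability vector to multiples of `1 / N` -/
private theorem n13_round {I : Type} [Fintype I] (ν : I → ℝ) (hν : ∀ i, 0 ≤ ν i)
    (hν1 : ∑ i, ν i = 1) (N : ℕ) :
    ∃ k : I → ℕ, ∑ i, k i = N ∧ ∀ i, |(k i : ℝ) - N * ν i| ≤ Fintype.card I := by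
  classical
  have hne : Nonempty I := by
    by_contra h
    rw [not_nonempty_iff] at h
    rw [Finset.univ_eq_empty, Finset.sum_empty] at hν1
    exact zero_ne_one hν1
  obtain ⟨i0⟩ := hne
  have hN : (0 : ℝ) ≤ N := Nat.cast_nonneg N
  have hfl : ∀ i, (⌊(N : ℝ) * ν i⌋₊ : ℝ) ≤ N * ν i := fun i =>
    Nat.floor_le (mul_nonneg hN (hν i))
  have hfl' : ∀ i, (N : ℝ) * ν i ≤ (⌊(N : ℝ) * ν i⌋₊ : ℝ) + 1 := fun i =>
    (Nat.lt_floor_add_one _).le
  have hs : ∑ i, (N : ℝ) * ν i = N := by rw [← Finset.mul_sum, hν1, mul_one]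
  have hle : ∑ i, ⌊(N : ℝ) * ν i⌋₊ ≤ N := by
    have : ((∑ i, ⌊(N : ℝ) * ν i⌋₊ : ℕ) : ℝ) ≤ N := by
      push_cast
      calc ∑ i, (⌊(N : ℝ) * ν i⌋₊ : ℝ) ≤ ∑ i, (N : ℝ) * ν i := Finset.sum_le_sum fun i _ => hfl i
        _ = N := hs
    exact_mod_cast this
  have hge : (N : ℝ) ≤ (∑ i, ⌊(N : ℝ) * ν i⌋₊ : ℕ) + Fintype.card I := by
    push_cast
    calc (N : ℝ) = ∑ i, (N : ℝ) * ν i := hs.symm
      _ ≤ ∑ i, ((⌊(N : ℝ) * ν i⌋₊ : ℝ) + 1) := Finset.sum_le_sum fun i _ => hfl' i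
      _ = ∑ i, (⌊(N : ℝ) * ν i⌋₊ : ℝ) + Fintype.card I := by
        rw [Finset.sum_add_distrib]; simp
  have hcard : (1 : ℝ) ≤ Fintype.card I := by
    have : 0 < Fintype.card I := Fintype.card_pos_iff.mpr ⟨i0⟩
    exact_mod_cast this
  refine ⟨fun i => ⌊(N : ℝ) * ν i⌋₊ +
    if i = i0 then N - ∑ i, ⌊(N : ℝ) * ν i⌋₊ else 0, ?_, ?_⟩
  · rw [Finset.sum_add_distrib, Finset.sum_ite_eq' Finset.univ i0, if_pos (Finset.mem_univ i0)]
    omega
  · intro i
    have h1 := hfl i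
    have h2 := hfl' i
    by_cases h : i = i0
    · simp only [h, if_true]
      rw [← h]
      push_cast [Nat.cast_sub hle]
      push_cast at hge
      have hle' : (∑ i, (⌊(N : ℝ) * ν i⌋₊ : ℝ)) ≤ N := by exact_mod_cast hle
      rw [abs_le]
      constructor <;> linarith
    · simp only [h, if_false]
      push_cast
      rw [abs_le]
      constructor <;> linarith

theorem exists_list {d : ℕ} {I : Type} [Fintype I] (u : I → Eu d) (ν : I → ℝ)
    (hν : ∀ i, 0 ≤ ν i) (hν1 : ∑ i, ν i = 1) (hν0 : ∑ i, ν i • u i = 0) (δ : ℝ) (hδ : 0 < δ)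
    (q : ℕ) (hq : 0 < q) :
    ∃ (S : ℕ) (g : Fin (2 ^ S * q) → I), ∀ y : Eu d,
      ∑ i, ν i * |⟪u i, y⟫| - δ * ‖y‖ ≤ (∑ l, |⟪u (g l), y⟫|) / (2 ^ S * q : ℕ) ∧
      |(∑ l, ⟪u (g l), y⟫) / (2 ^ S * q : ℕ)| ≤ δ * ‖y‖ := by
  classical
  obtain ⟨S, hS⟩ := pow_unbounded_of_one_lt
    ((Fintype.card I : ℝ) * (∑ i, ‖u i‖) / δ) (one_lt_two : (1 : ℝ) < 2)
  obtain ⟨k, hk1, hk2⟩ := n13_round ν hν hν1 (2 ^ S * q)
  have hN0 : (0 : ℝ) < (2 ^ S * q : ℕ) := by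
    have : 0 < 2 ^ S * q := by positivity
    exact_mod_cast this
  have hNbig : (Fintype.card I : ℝ) * (∑ i, ‖u i‖) ≤ δ * (2 ^ S * q : ℕ) := by
    have hq1 : (1 : ℝ) ≤ q := by exact_mod_cast hq
    have h1 : (Fintype.card I : ℝ) * (∑ i, ‖u i‖) ≤ 2 ^ S * δ := by
      rw [div_lt_iff₀ hδ] at hS
      exact hS.le
    have h2 : (2 : ℝ) ^ S * δ ≤ δ * (2 ^ S * q) := by
      have : (0 : ℝ) < 2 ^ S := by positivity
      nlinarith [mul_pos this hδ]
    push_cast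
    linarith
  have hcard : Fintype.card (Fin (2 ^ S * q)) = Fintype.card (Σ i, Fin (k i)) := by
    rw [Fintype.card_fin, Fintype.card_sigma]
    simp [hk1]
  let e := Fintype.equivOfCardEq hcard
  refine ⟨S, fun l => (e l).1, fun y => ?_⟩
  have hsum : ∀ F : I → ℝ, ∑ l, F ((e l).1) = ∑ i, (k i : ℝ) * F i := by
    intro F
    rw [Equiv.sum_comp e (fun x => F x.1), Fintype.sum_sigma]
    apply Finset.sum_congr rfl
    intro i _
    simp
  rw [hsum (fun i => |⟪u i, y⟫|), hsum (fun i => ⟪u i, y⟫)]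
  set N : ℝ := ((2 ^ S * q : ℕ) : ℝ) with hNdef
  -- the error
  have herr : ∀ F : I → ℝ, (∀ i, |F i| ≤ ‖u i‖ * ‖y‖) →
      |(∑ i, (k i : ℝ) * F i) - N * ∑ i, ν i * F i| ≤ δ * ‖y‖ * N := by
    intro F hF
    have h1 : (∑ i, (k i : ℝ) * F i) - N * ∑ i, ν i * F i = ∑ i, ((k i : ℝ) - N * ν i) * F i := by
      rw [Finset.mul_sum, ← Finset.sum_sub_distrib]
      apply Finset.sum_congr rfl
      intro i _
      ring
    rw [h1]
    calc |∑ i, ((k i : ℝ) - N * ν i) * F i| ≤ ∑ i, |((k i : ℝ) - N * ν i) * F i| :=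
          Finset.abs_sum_le_sum_abs _ _
      _ ≤ ∑ i, (Fintype.card I : ℝ) * (‖u i‖ * ‖y‖) := by
          apply Finset.sum_le_sum
          intro i _
          rw [abs_mul]
          exact mul_le_mul (hk2 i) (hF i) (abs_nonneg _) (Nat.cast_nonneg _)
      _ = ((Fintype.card I : ℝ) * ∑ i, ‖u i‖) * ‖y‖ := by
          rw [← Finset.mul_sum, ← Finset.sum_mul]; ring
      _ ≤ (δ * N) * ‖y‖ := mul_le_mul_of_nonneg_right hNbig (norm_nonneg y)
      _ = δ * ‖y‖ * N := by ring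
  have hin : ∀ i, |(⟪u i, y⟫ : ℝ)| ≤ ‖u i‖ * ‖y‖ := fun i => abs_real_inner_le_norm _ _
  constructor
  · have h1 := herr (fun i => |⟪u i, y⟫|) (fun i => by rw [abs_abs]; exact hin i)
    rw [le_div_iff₀ hN0]
    have h2 := (abs_le.mp h1).1
    nlinarith
  · have h1 := herr (fun i => ⟪u i, y⟫) hin
    have h0 : ∑ i, ν i * (⟪u i, y⟫ : ℝ) = 0 := by
      have h2 : (⟪∑ i, ν i • u i, y⟫ : ℝ) = ∑ i, ν i * (⟪u i, y⟫ : ℝ) := by
        rw [sum_inner]
        apply Finset.sum_congr rfl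
        intro i _
        rw [real_inner_smul_left]
      rw [← h2, hν0, inner_zero_left]
    rw [h0, mul_zero, sub_zero] at h1
    rw [abs_div, abs_of_pos hN0, div_le_iff₀ hN0]
    exact h1

end Pool.Agent.Helper57.NS
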